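import Pool.Agent.H54.AX.Lr

/-!
# Acylindrical actions on products of trees: definitions

`Fx G m f`: the pointwise stabiliser of the paths `f` between the parameters `- m` and `m`. `Trs G m a f`: the elements which
translate the paths by a vector of length at most `a`. `Ac G T k N`: at most `N` elements fix two points of the product whose
distance in every tree is at least `k`. `Rt A`: the elements with a power in `A`.
-/

set_option autoImplicit false

namespace Pool.Agent.H37.PT

open Pool.Agent.H98.FJ Pool.Agent.H93.TR Pool.Agent.H54.AX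

section

variable (G : Type) [Group G] {n : ℕ} {V : Fin n → Type} [∀ k, MulAction G (V k)]

/-- the pointwise stabiliser of the paths between the parameters `- m` and `m` -/
def Fx (m : ℕ) (f : ∀ k, ℤ → V k) : Subgroup G where
  carrier := {g | ∀ k (i : ℤ), |i| ≤ m → g • f k i = f k i}
  mul_mem' := by
    intro g h hg hh k i hi
    rw [mul_smul, hh k i hi, hg k i hi]
  one_mem' := by
    intro k i _
    rw [one_smul]
  inv_mem' := by
    intro g hg k i hi
    rw [inv_smul_eq_iff, hg k i hi]

/-- the elements which translate the paths, between the parameters `- m` and `m`, by a vector of length at most `a` -/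
def Trs (m a : ℕ) (f : ∀ k, ℤ → V k) : Set G := {h | ∃ v : Fin n → ℤ, (∀ k, |v k| ≤ a) ∧ Trn m f h v}

/-- at most `N` elements fix two points of the product whose distance in every tree is at least `k` -/
def Ac (T : ∀ k, SimpleGraph (V k)) (k N : ℕ) : Prop :=
  ∀ x y : ∀ j, V j, (∀ j, k ≤ (T j).dist (x j) (y j)) → {g : G | ∀ j, g • x j = x j ∧ g • y j = y j}.encard ≤ N

end

/-- the elements with a power in `A` -/
def Rt {G : Type} [Group G] (A : Subgroup G) : Set G := {x | ∃ m : ℕ, 0 < m ∧ x ^ m ∈ A}

/-- the stabiliser of the root set of `A` -/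
def St {G : Type} [Group G] (A : Subgroup G) : Subgroup G where
  carrier := {g | ∀ x, g⁻¹ * x * g ∈ Rt A ↔ x ∈ Rt A}
  mul_mem' := by
    intro g h hg hh x
    have e : (g * h)⁻¹ * x * (g * h) = h⁻¹ * (g⁻¹ * x * g) * h := by group
    rw [e, hh, hg]
  one_mem' := by
    intro x
    rw [inv_one, one_mul, mul_one]
  inv_mem' := by
    intro g hg x
    have h := hg (g * x * g⁻¹)
    have e : g⁻¹ * (g * x * g⁻¹) * g = x := by group
    rw [e] at h
    rw [inv_inv]
    exact h.symm

/-- `L` are lines or fixed points of the group `A`, which acts by the translations `τ` -/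
structure Ax {G : Type} [Group G] {n : ℕ} {V : Fin n → Type} [∀ k, MulAction G (V k)] (T : ∀ k, SimpleGraph (V k))
    (A : Subgroup G) (L : ∀ k, ℤ → V k) (τ : G → Fin n → ℤ) : Prop where
  mul : ∀ x ∈ A, ∀ y ∈ A, τ (x * y) = τ x + τ y
  act : ∀ k, (Line (T k) (L k) ∧ ∀ x ∈ A, ∀ i, x • L k i = L k (i + τ x k)) ∨ ∀ x ∈ A, τ x k = 0
  fin : {x : G | x ∈ A ∧ τ x = 0}.Finite

end Pool.Agent.H37.PT
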