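import Pool.Agent.H37.PT.Dual
import Pool.Agent.H93.TR.WClaim

/-!
# The action on the dual tree of a nested family of half-spaces

`K` acts on `V` and preserves the nested family `O` of half-spaces. Then `K` acts on the vertices of the dual tree by images
(`actVx`), this is an action on the tree `dual O` (`act_onTree`), `g • ev x = ev (g • x)` (`smul_ev`), and an element with a
fixed vertex `U` moves a point `x` over at most `2 d(ev x, U)` walls (`fix_ncard`).
-/

set_option autoImplicit false

namespace Pool.Agent.H37.PT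

open Set Pool.Agent.H93.TR

open scoped Pointwise

variable {V : Type} {K : Type} [Group K] [MulAction K V]

/-- the group preserves the family of half-spaces -/
def Pres (K : Type) [Group K] [MulAction K V] (O : Set (Set V)) : Prop := ∀ g : K, ∀ h ∈ O, g • h ∈ O

/-- the image of a vertex -/
def smulVx {O : Set (Set V)} (hP : Pres K O) (g : K) (a : Vx O) : Vx O where
  U := g • a.U
  sub := by
    rintro h hh
    rw [mem_smul_set_iff_inv_smul_mem] at hh
    have := hP g _ (a.sub hh)
    rwa [smul_inv_smul] at this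
  one := by
    intro h hh
    rw [mem_smul_set_iff_inv_smul_mem, mem_smul_set_iff_inv_smul_mem, smul_set_compl]
    exact a.one _ (hP g⁻¹ h hh)
  up := by
    intro h hh k hk hs
    rw [mem_smul_set_iff_inv_smul_mem] at hh ⊢
    exact a.up _ hh _ (hP g⁻¹ k hk) (smul_set_mono hs)
  fin := by
    intro x
    have h1 := (a.fin (g⁻¹ • x)).image (fun h : Set V => g • h)
    refine h1.subset ?_
    rintro h ⟨h2, h3⟩
    rw [mem_smul_set_iff_inv_smul_mem] at h2
    refine ⟨g⁻¹ • h, ⟨h2, ?_⟩, smul_inv_smul g h⟩
    rwa [smul_mem_smul_set_iff]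

/-- the action on the vertices of the dual tree by images of half-spaces -/
@[reducible] def actVx {O : Set (Set V)} (hP : Pres K O) : MulAction K (Vx O) where
  smul := smulVx hP
  one_smul := by
    intro a
    apply Vx.ext'
    change (1 : K) • a.U = a.U
    rw [one_smul]
  mul_smul := by
    intro g h a
    apply Vx.ext'
    change (g * h) • a.U = g • (h • a.U)
    rw [mul_smul]

theorem smul_U {O : Set (Set V)} (hP : Pres K O) (g : K) (a : Vx O) :
    letI := actVx hP
    (g • a).U = g • a.U := rfl

theorem mem_smul_U {O : Set (Set V)} (hP : Pres K O) (g : K) (a : Vx O) (h : Set V) :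
    letI := actVx hP
    h ∈ (g • a).U ↔ ∃ k ∈ a.U, h = g • k := by
  change h ∈ g • a.U ↔ _
  constructor
  · rintro ⟨k, hk, hg⟩
    exact ⟨k, hk, hg.symm⟩
  · rintro ⟨k, hk, hg⟩
    exact ⟨k, hk, hg.symm⟩

/-- the group acts on the dual tree -/
theorem act_onTree {O : Set (Set V)} (hO : Nest O) (hP : Pres K O) (x : V) :
    letI := actVx hP
    OnTree K (dual O) := by
  let _ := actVx hP
  refine ⟨dual_tree hO x, ?_⟩
  rintro g a b ⟨h, ha, hb⟩
  refine ⟨g • h, smul_mem_smul_set ha, ?_⟩
  change g • b.U = (g • a.U \ {g • h}) ∪ {(g • h)ᶜ}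
  rw [hb, smul_set_union, smul_set_sdiff, smul_set_singleton, smul_set_singleton, smul_set_compl]

/-- the vertex of the image of a point -/
theorem smul_ev {O : Set (Set V)} (hO : Nest O) (hP : Pres K O) (g : K) (x : V) :
    letI := actVx hP
    g • ev hO x = ev hO (g • x) := by
  let _ := actVx hP
  apply Vx.ext'
  change g • {h ∈ O | x ∈ h} = {h ∈ O | g • x ∈ h}
  ext h
  rw [mem_smul_set_iff_inv_smul_mem]
  constructor
  · rintro ⟨h1, h2⟩
    refine ⟨?_, ?_⟩
    · have := hP g _ h1
      rwa [smul_inv_smul] at this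
    · rwa [mem_smul_set_iff_inv_smul_mem, inv_inv] at h2
  · rintro ⟨h1, h2⟩
    refine ⟨hP g⁻¹ h h1, ?_⟩
    rwa [mem_smul_set_iff_inv_smul_mem, inv_inv]

/-- an element with a fixed vertex moves a point over a bounded number of walls -/
theorem fix_ncard {O : Set (Set V)} (hO : Nest O) (hP : Pres K O) (g : K) (x : V) (U : Vx O)
    (hU : letI := actVx hP; g • U = U) :
    {h ∈ O | x ∈ h ∧ g • x ∉ h}.ncard ≤ 2 * (dual O).dist (ev hO x) U := by
  let _ := actVx hP
  have hX : OnTree K (dual O) := act_onTree hO hP x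
  rw [← dual_dist hO x (g • x), ← smul_ev hO hP g x]
  have h1 := hX.tree.connected.dist_triangle (u := ev hO x) (v := U) (w := g • ev hO x)
  have h2 : (dual O).dist U (g • ev hO x) = (dual O).dist U (ev hO x) := by
    have h3 := dist_smul hX g U (ev hO x)
    have hU' : g • U = U := hU
    rwa [hU'] at h3
  rw [h2, SimpleGraph.dist_comm (u := U)] at h1
  omega

end Pool.Agent.H37.PT
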