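import Pool.Agent.H37.PT.Loc
import Pool.Agent.H76.GU.PTL
import Pool.Agent.H76.VC.Ab
import Pool.Agent.H54.AX.Ct

/-!
# Acylindrical actions and proper actions on products of trees
-/

set_option autoImplicit false

namespace Pool.Agent.H37.PT

open Pool.Agent.H98.FJ Pool.Agent.H93.TR Pool.Agent.H54.AX

private theorem ac_sub {G : Type} [Group G] {n : ℕ} {V : Fin n → Type} [∀ k, MulAction G (V k)] {T : ∀ k, SimpleGraph (V k)}
    {k0 N : ℕ} (hA : Ac G T k0 N) (H : Subgroup G) (W : ∀ k, SubMulAction H (V k)) (S : ∀ k, SimpleGraph (W k))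
    (hd : ∀ k (a b : W k), (S k).dist a b = (T k).dist (a : V k) (b : V k)) : Ac H S k0 N := by
  intro x y hxy
  have h1 := hA (fun k => (x k : V k)) (fun k => (y k : V k)) (fun k => by rw [← hd]; exact hxy k)
  refine le_trans ?_ h1
  rw [← Function.Injective.encard_image Subtype.val_injective]
  refine Set.encard_le_encard ?_
  rintro _ ⟨g, hg, rfl⟩
  exact fun j => ⟨congrArg Subtype.val (hg j).1, congrArg Subtype.val (hg j).2⟩

private theorem fg_countable {G : Type} [Group G] {H : Subgroup G} (hH : H.FG) : Countable H := by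
  obtain ⟨S, rfl⟩ := hH
  rw [FreeGroup.closure_eq_range]
  exact (MonoidHom.rangeRestrict_surjective _).countable

/-- groups which act acylindrically on a product of trees -/
theorem apt {C : (G : Type) → [Group G] → Prop} (hC : Inherits C) (hT : Pool.Agent.H76.GT.Transfer C) {G : Type} [Group G]
    {n : ℕ} (hn : 0 < n) {V : Fin n → Type} [∀ k, MulAction G (V k)] {T : ∀ k, SimpleGraph (V k)}
    (hX : ∀ k, OnTree G (T k)) (hst : ∀ k (x : V k), C (MulAction.stabilizer G x)) {k0 N : ℕ} (hA : Ac G T k0 N) : C G := by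
  refine Pool.Agent.H76.VC.of_fg hC G fun H hH => ?_
  have hcH : Countable H := fg_countable hH
  have hX' : ∀ k, OnTree H (T k) := fun k => ⟨(hX k).tree, fun g v w h => (hX k).adj g v w h⟩
  choose W hW hXW hd using fun k => exists_ctree (hX' k)
  have hne : ∀ k, Nonempty (W k) := fun k => (hXW k).tree.connected.nonempty
  have hst' : ∀ k (x : W k), C (MulAction.stabilizer H x) := by
    intro k x
    have h1 : ∀ y : MulAction.stabilizer H x, (y.1 : G) ∈ MulAction.stabilizer G (x : V k) := fun y =>
      congrArg Subtype.val y.2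
    exact hC.of_injective
      { toFun := fun y : MulAction.stabilizer H x => (⟨y.1.1, h1 y⟩ : MulAction.stabilizer G (x : V k))
        map_one' := rfl
        map_mul' := fun _ _ => rfl } (fun a b hab => Subtype.ext (Subtype.ext (Subtype.mk.inj hab))) (hst k x)
  have hP : ∀ k, Pool.Agent.H76.GT.Pres H ((T k).comap (fun x : W k => (x : V k))) := fun k => ⟨(hXW k).adj⟩
  exact Pool.Agent.H76.GT.pt_loc hC hT ((Group.fg_iff_subgroup_fg H).2 hH) hn _ (fun k => (hXW k).tree) hst'
    (locRig hC hXW hst' (ac_sub hA H W _ hd))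

/-- for every finitely generated subgroup the stabilisers in the product have bounded finite order -/
def Bd (G : Type) [Group G] {n : ℕ} (V : Fin n → Type) [∀ k, MulAction G (V k)] : Prop :=
  ∀ H : Subgroup G, H.FG → ∃ N : ℕ, ∀ x : ∀ k, V k, {g : G | g ∈ H ∧ ∀ k, g • x k = x k}.encard ≤ N

private theorem fg_map {G H : Type} [Group G] [Group H] (φ : G →* H) {K : Subgroup G} (hK : K.FG) : (K.map φ).FG := by
  classical
  obtain ⟨S, hS⟩ := hK
  exact ⟨S.image φ, by rw [Finset.coe_image, ← MonoidHom.map_closure, hS]⟩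

private theorem bd_sub {G : Type} [Group G] {n : ℕ} {V : Fin n → Type} [∀ k, MulAction G (V k)] (h : Bd G V)
    (H : Subgroup G) : Bd H V := by
  intro K hK
  obtain ⟨N, hN⟩ := h (K.map H.subtype) (fg_map _ hK)
  refine ⟨N, fun x => le_trans ?_ (hN x)⟩
  rw [← Function.Injective.encard_image Subtype.val_injective]
  refine Set.encard_le_encard ?_
  rintro _ ⟨g, hg, rfl⟩
  exact ⟨⟨g, hg.1, rfl⟩, hg.2⟩

/-- groups which act properly on a product of trees -/
theorem ft {C : (G : Type) → [Group G] → Prop} (hC : Inherits C) (hT : Pool.Agent.H76.GT.Transfer C) (n : ℕ) :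
    ∀ (G : Type) [Group G] (V : Fin n → Type) [∀ k, MulAction G (V k)] (T : ∀ k, SimpleGraph (V k)),
      (∀ k, OnTree G (T k)) → Bd G V → C G := by
  induction n with
  | zero =>
    intro G _ V _ T _ hB
    refine Pool.Agent.H76.VC.of_fg hC G fun H hH => ?_
    obtain ⟨N, hN⟩ := hB H hH
    have h1 := hN (fun k => k.elim0)
    have h2 : {g : G | g ∈ H ∧ ∀ k : Fin 0, g • (k.elim0 : V k) = k.elim0} = (H : Set G) := by
      ext g
      exact ⟨fun h => h.1, fun h => ⟨h, fun k => k.elim0⟩⟩
    rw [h2] at h1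
    exact hC.fin H (Set.finite_of_encard_le_coe h1).to_subtype
  | succ n ih =>
    intro G _ V _ T hX hB
    refine Pool.Agent.H76.VC.of_fg hC G fun H hH => ?_
    have hX' : ∀ k, OnTree H (T k) := fun k => ⟨(hX k).tree, fun g v w h => (hX k).adj g v w h⟩
    have hB' := bd_sub hB H
    obtain ⟨N, hN⟩ := hB' ⊤ ((Group.fg_iff_subgroup_fg H).2 hH).out
    refine apt hC hT (Nat.succ_pos n) hX' (fun k x => ?_) (k0 := 0) (N := N) ?_
    · refine ih (MulAction.stabilizer H x) (fun j => V (k.succAbove j)) (fun j => T (k.succAbove j))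
        (fun j => ⟨(hX _).tree, fun g v w h => (hX _).adj g v w h⟩) ?_
      intro K hK
      obtain ⟨M, hM⟩ := hB' (K.map (MulAction.stabilizer H x).subtype) (fg_map _ hK)
      refine ⟨M, fun y => le_trans ?_ (hM (k.insertNth x y))⟩
      rw [← Function.Injective.encard_image Subtype.val_injective]
      refine Set.encard_le_encard ?_
      rintro _ ⟨g, hg, rfl⟩
      refine ⟨⟨g, hg.1, rfl⟩, ?_⟩
      rw [Fin.forall_iff_succAbove k]
      refine ⟨?_, fun j => ?_⟩
      · rw [Fin.insertNth_apply_same]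
        exact g.2
      · rw [Fin.insertNth_apply_succAbove]
        exact hg.2 j
    · intro x y _
      refine (Set.encard_le_encard ?_).trans (hN x)
      exact fun g hg => ⟨trivial, fun k => (hg k).1⟩

end Pool.Agent.H37.PT
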