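import Pool.Agent.H37.PT.Defs

/-!
# The axis of a translation extends the given segment
-/

set_option autoImplicit false

namespace Pool.Agent.H37.PT

open Pool.Agent.H98.FJ Pool.Agent.H93.TR Pool.Agent.H54.AX

variable {Q V : Type} [Group Q] [MulAction Q V] {X : SimpleGraph V}

private theorem pw_nat {m : ℕ} {f : ℤ → V} {h : Q} {v : ℤ} (h1 : Trn1 m f h v) (n : ℕ) :
    ∀ i : ℤ, |i| ≤ m → |i + n * v| ≤ m → h ^ n • f i = f (i + n * v) := by
  induction n with
  | zero =>
      intro i _ _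
      simp
  | succ n ih =>
      intro i hi hn
      have hmid : |i + n * v| ≤ m := by
        rw [abs_le] at hi hn ⊢
        push_cast at hn
        rcases le_total 0 v with hv | hv
        · have h0 : 0 ≤ (n : ℤ) * v := mul_nonneg (Int.natCast_nonneg n) hv
          constructor <;> nlinarith [hi.1, hi.2, hn.1, hn.2]
        · have h0 : (n : ℤ) * v ≤ 0 := mul_nonpos_of_nonneg_of_nonpos (Int.natCast_nonneg n) hv
          constructor <;> nlinarith [hi.1, hi.2, hn.1, hn.2]
      rw [pow_succ', mul_smul, ih i hi hmid, h1 _ hmid]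
      congr 1
      push_cast
      ring

private theorem pw_int {m : ℕ} {f : ℤ → V} {h : Q} {v : ℤ} (h1 : Trn1 m f h v) (n : ℤ) (i : ℤ) (hi : |i| ≤ m)
    (hn : |i + n * v| ≤ m) : h ^ n • f i = f (i + n * v) := by
  obtain ⟨k, rfl | rfl⟩ := Int.eq_nat_or_neg n
  · rw [zpow_natCast]
    exact pw_nat h1 k i hi hn
  · rw [zpow_neg, zpow_natCast, inv_smul_eq_iff]
    have h2 := pw_nat h1 k (i + -(k : ℤ) * v) hn (by
      have e : i + -(k : ℤ) * v + k * v = i := by ring
      rw [e]
      exact hi)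
    rw [h2]
    congr 1
    ring

/-- powers of a translation -/
theorem line_zpow {L : ℤ → V} {h : Q} {v : ℤ} (h1 : ∀ i, h • L i = L (i + v)) (c : ℤ) :
    ∀ i, h ^ c • L i = L (i + c * v) := by
  have h2 : ∀ i, h⁻¹ • L i = L (i - v) := by
    intro i
    rw [inv_smul_eq_iff, h1, sub_add_cancel]
  induction c using Int.induction_on with
  | zero =>
    intro i
    rw [zpow_zero, one_smul, zero_mul, add_zero]
  | succ n ih =>
    intro i
    rw [zpow_add_one, mul_smul, h1, ih]
    congr 1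
    ring
  | pred n ih =>
    intro i
    rw [zpow_sub_one, mul_smul, h2, ih]
    congr 1
    ring

theorem exists_line_ext (hX : OnTree Q X) {m a : ℕ} {f : ℤ → V} (hf : Geo1 X (m + a) f) {h : Q} {v : ℤ} (hv : v ≠ 0)
    (ha : |v| ≤ a) (hm : a + 2 ≤ m) (h1 : Trn1 m f h v) :
    ∃ L : ℤ → V, Line X L ∧ (∀ i, h • L i = L (i + v)) ∧ ∀ i : ℤ, |i| ≤ m → L i = f i := by
  have hv1 := abs_le.1 ha
  obtain ⟨L, hL⟩ : ∃ L : ℤ → V, L = fun i => h ^ (i / v) • f (i % v) := ⟨_, rfl⟩
  have hmod : ∀ i : ℤ, 0 ≤ i % v ∧ i % v ≤ a := by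
    intro i
    refine ⟨Int.emod_nonneg _ hv, ?_⟩
    have := Int.emod_lt_abs i hv
    omega
  have hdm : ∀ i : ℤ, i % v + i / v * v = i := by
    intro i
    rw [mul_comm]
    exact Int.emod_add_mul_ediv i v
  have hloc : ∀ i : ℤ, |i| ≤ m → L i = f i := by
    intro i hi
    have h2 := hmod i
    have h3 := pw_int h1 (i / v) (i % v) (by rw [abs_of_nonneg h2.1]; omega) (by rw [hdm]; exact hi)
    rw [hdm] at h3
    rw [hL]
    exact h3
  have htr : ∀ i : ℤ, h • L i = L (i + v) := by
    intro i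
    have e1 : (i + v) / v = i / v + 1 := by
      have := Int.add_mul_ediv_right i 1 hv
      rwa [one_mul] at this
    have e2 : (i + v) % v = i % v := by
      have := Int.add_mul_emod_self_right i 1 v
      rwa [one_mul] at this
    rw [hL]
    simp only
    rw [e1, e2, add_comm, zpow_add, zpow_one, mul_smul]
  have hB : ∀ c s : ℤ, |s| ≤ m → L (c * v + s) = h ^ c • f s := by
    intro c s hs
    rw [add_comm, ← line_zpow htr c s, hloc s hs]
  have hf' : ∀ i j : ℤ, |i| ≤ ((m + a : ℕ) : ℤ) → |j| ≤ ((m + a : ℕ) : ℤ) → (X.dist (f i) (f j) : ℤ) = |i - j| := hf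
  have hC : ∀ i : ℤ, ∃ c r : ℤ, 0 ≤ r ∧ r ≤ a ∧ i = c * v + r := fun i =>
    ⟨i / v, i % v, (hmod i).1, (hmod i).2, by
      have := hdm i
      omega⟩
  have hadj : ∀ i : ℤ, X.Adj (L i) (L (i + 1)) := by
    intro i
    obtain ⟨c, r, hr0, hrn, rfl⟩ := hC i
    rw [add_assoc, hB _ _ (by rw [abs_of_nonneg hr0]; omega), hB _ _ (by rw [abs_of_nonneg (by omega)]; omega)]
    refine hX.adj _ _ _ ?_
    rw [← SimpleGraph.dist_eq_one_iff_adj]
    have h2 := hf' r (r + 1) (by rw [abs_of_nonneg hr0]; push_cast; omega) (by rw [abs_of_nonneg (by omega)]; push_cast; omega)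
    have h3 : |r - (r + 1)| = 1 := by
      rw [show r - (r + 1) = -1 by ring]
      norm_num
    rw [h3] at h2
    exact_mod_cast h2
  have hne : ∀ i : ℤ, L i ≠ L (i + 2) := by
    intro i
    obtain ⟨c, r, hr0, hrn, rfl⟩ := hC i
    rw [add_assoc, hB _ _ (by rw [abs_of_nonneg hr0]; omega), hB _ _ (by rw [abs_of_nonneg (by omega)]; omega)]
    intro h2
    have h3 : f r = f (r + 2) := MulAction.injective _ h2
    have h4 := hf' r (r + 2) (by rw [abs_of_nonneg hr0]; push_cast; omega) (by rw [abs_of_nonneg (by omega)]; push_cast; omega)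
    rw [h3, SimpleGraph.dist_self, show r - (r + 2) = -2 by ring] at h4
    norm_num at h4
  have hD : ∀ (i : ℤ) (k : ℕ), X.dist (L i) (L (i + k)) = k := by
    intro i k
    have h2 := (Pool.Agent.H76.VC.line_dist hX.tree (fun k : ℕ => L (i + k)) (fun k => by
      have := hadj (i + k)
      rw [add_assoc] at this
      push_cast
      exact this) (fun k => by
      have := hne (i + k)
      rw [add_assoc] at this
      push_cast
      exact this) k).1
    simp only [Nat.cast_zero, add_zero] at h2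
    exact h2
  refine ⟨L, ?_, htr, hloc⟩
  have key : ∀ i j : ℤ, i ≤ j → (X.dist (L i) (L j) : ℤ) = |i - j| := by
    intro i j hij
    have h2 := hD i (j - i).toNat
    have h3 : ((j - i).toNat : ℤ) = j - i := Int.toNat_of_nonneg (by omega)
    rw [h3, add_sub_cancel] at h2
    rw [h2, h3, abs_sub_comm, abs_of_nonneg (by omega)]
  intro i j
  rcases le_total i j with h | h
  · exact key i j h
  · rw [SimpleGraph.dist_comm, abs_sub_comm]
    exact key j i h

end Pool.Agent.H37.PT
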