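import Pool.Agent.H37.PT.Box
import Pool.Agent.H37.PT.Lin

/-!
# The group generated by the translations of a box acts by translations on lines

`F` = the stabiliser of the box of radius `K`, normalised by the group `A` generated by the translations of a large box; the
commutators of the translations are in `F`. So `F` fixes the axis of every translation pointwise, and all elements of `A`
act on this axis by translations.
-/

set_option autoImplicit false

namespace Pool.Agent.H37.PT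

open Pool.Agent.H98.FJ Pool.Agent.H93.TR Pool.Agent.H54.AX

theorem line_inj {V : Type} {X : SimpleGraph V} {L : ℤ → V} (hL : Line X L) {i j : ℤ} (h : L i = L j) : i = j := by
  have h1 := hL i j
  rw [h, SimpleGraph.dist_self] at h1
  have h2 : |i - j| = 0 := by
    rw [← h1]
    rfl
  have h3 := abs_eq_zero.1 h2
  omega

/-- commutators with powers -/
theorem comm_zpow {G : Type} [Group G] {F : Subgroup G} {g h : G} (hn : ∀ y ∈ F, h * y * h⁻¹ ∈ F ∧ h⁻¹ * y * h ∈ F)
    (hc : g * h * g⁻¹ * h⁻¹ ∈ F) (c : ℤ) : g * h ^ c * g⁻¹ * (h ^ c)⁻¹ ∈ F := by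
  have hz : ∀ c : ℤ, ∀ y ∈ F, h ^ c * y * (h ^ c)⁻¹ ∈ F := by
    intro c
    induction c using Int.induction_on with
    | zero =>
      intro y hy
      rwa [zpow_zero, one_mul, inv_one, mul_one]
    | succ n ih =>
      intro y hy
      have h1 := ih _ (hn y hy).1
      have e : h ^ ((n : ℤ) + 1) * y * (h ^ ((n : ℤ) + 1))⁻¹ = h ^ (n : ℤ) * (h * y * h⁻¹) * (h ^ (n : ℤ))⁻¹ := by
        rw [zpow_add_one]
        group
      rw [e]
      exact h1
    | pred n ih =>
      intro y hy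
      have h1 := ih _ (hn y hy).2
      have e : h ^ (-(n : ℤ) - 1) * y * (h ^ (-(n : ℤ) - 1))⁻¹ = h ^ (-(n : ℤ)) * (h⁻¹ * y * h) * (h ^ (-(n : ℤ)))⁻¹ := by
        rw [zpow_sub_one]
        group
      rw [e]
      exact h1
  have hc' : g * h⁻¹ * g⁻¹ * h ∈ F := by
    have h1 := (hn _ (F.inv_mem hc)).2
    have e : g * h⁻¹ * g⁻¹ * h = h⁻¹ * (g * h * g⁻¹ * h⁻¹)⁻¹ * h := by group
    rw [e]
    exact h1
  induction c using Int.induction_on with
  | zero =>
    rw [zpow_zero, mul_one, mul_inv_cancel, one_mul, inv_one]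
    exact F.one_mem
  | succ n ih =>
    have e : g * h ^ ((n : ℤ) + 1) * g⁻¹ * (h ^ ((n : ℤ) + 1))⁻¹ =
        (g * h ^ (n : ℤ) * g⁻¹ * (h ^ (n : ℤ))⁻¹) * (h ^ (n : ℤ) * (g * h * g⁻¹ * h⁻¹) * (h ^ (n : ℤ))⁻¹) := by
      rw [zpow_add_one]
      group
    rw [e]
    exact F.mul_mem ih (hz _ _ hc)
  | pred n ih =>
    have e : g * h ^ (-(n : ℤ) - 1) * g⁻¹ * (h ^ (-(n : ℤ) - 1))⁻¹ =
        (g * h ^ (-(n : ℤ)) * g⁻¹ * (h ^ (-(n : ℤ)))⁻¹) * (h ^ (-(n : ℤ)) * (g * h⁻¹ * g⁻¹ * h) * (h ^ (-(n : ℤ)))⁻¹) := by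
      rw [zpow_sub_one]
      group
    rw [e]
    exact F.mul_mem ih (hz _ _ hc')

variable {G : Type} [Group G] {n : ℕ} {V : Fin n → Type} [∀ k, MulAction G (V k)] {T : ∀ k, SimpleGraph (V k)}

theorem exists_ax (hX : ∀ k, OnTree G (T k)) {m a K : ℕ} {f : ∀ k, ℤ → V k} (hf : Geo T (m + a) f) (haK : a ≤ K)
    (hm : K + 2 * a + 2 ≤ m) (hF : Fx G K f = Fx G (K + a) f) (hfin : (Fx G K f : Set G).Finite) :
    ∃ (L : ∀ k, ℤ → V k) (τ : G → Fin n → ℤ), Ax T (Subgroup.closure (Trs G m a f)) L τ ∧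
      ∀ (h : G) (v : Fin n → ℤ), (∀ k, |v k| ≤ a) → Trn m f h v → τ h = v := by
  classical
  obtain ⟨A, hA⟩ : ∃ A, A = Subgroup.closure (Trs G m a f) := ⟨_, rfl⟩
  rw [← hA]
  have hTA : ∀ x ∈ Trs G m a f, x ∈ A := fun x hx => hA ▸ Subgroup.subset_closure hx
  -- the stabiliser of the box is normalised
  have hN : ∀ x ∈ A, ∀ y ∈ Fx G K f, x * y * x⁻¹ ∈ Fx G K f ∧ x⁻¹ * y * x ∈ Fx G K f := by
    intro x hx
    rw [hA] at hx
    induction hx using Subgroup.closure_induction with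
    | mem x hx =>
      obtain ⟨v, hv, h⟩ := hx
      exact fun y hy => conj_mem hF (by omega) hv h hy
    | one =>
      intro y hy
      rw [inv_one, one_mul, mul_one]
      exact ⟨hy, hy⟩
    | mul x z _ _ ihx ihz =>
      intro y hy
      have h1 := ihx _ (ihz y hy).1
      have h2 := ihz _ (ihx y hy).2
      have e1 : x * z * y * (x * z)⁻¹ = x * (z * y * z⁻¹) * x⁻¹ := by group
      have e2 : (x * z)⁻¹ * y * (x * z) = z⁻¹ * (x⁻¹ * y * x) * z := by group
      rw [e1, e2]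
      exact ⟨h1.1, h2.2⟩
    | inv x _ ih =>
      intro y hy
      rw [inv_inv]
      exact (ih y hy).symm
  let P : Fin n → Prop := fun k => ∃ (h : G) (v : Fin n → ℤ), (∀ k, |v k| ≤ a) ∧ Trn m f h v ∧ v k ≠ 0
  -- the lines
  have hline : ∀ k, ∃ L : ℤ → V k, (∀ i : ℤ, |i| ≤ m → L i = f k i) ∧ (P k → Line (T k) L ∧
      (∀ (g : G) (w : Fin n → ℤ), (∀ k, |w k| ≤ a) → Trn m f g w → ∀ i, g • L i = L (i + w k))) := by
    intro k
    by_cases hP : P k
    · obtain ⟨h, v, hv, ht, hvk⟩ := hP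
      have hg1 : Geo1 (T k) (m + a) (f k) := hf k
      obtain ⟨L, hL, hLt, hLf⟩ := exists_line_ext (hX k) hg1 hvk (hv k) (by omega) (ht k)
      have hh : h ∈ A := hTA h ⟨v, hv, ht⟩
      have hr : ∀ i : ℤ, ∃ c r : ℤ, 0 ≤ r ∧ r ≤ a ∧ i = r + c * v k := by
        intro i
        refine ⟨i / v k, i % v k, Int.emod_nonneg _ hvk, ?_, ?_⟩
        · have h1 := Int.emod_lt_abs i hvk
          have h2 := hv k
          omega
        · have h1 := Int.emod_add_mul_ediv i (v k)
          rw [mul_comm] at h1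
          exact h1.symm
      have hfix : ∀ y ∈ Fx G K f, ∀ i, y • L i = L i := by
        intro y hy i
        obtain ⟨c, r, hr0, hra, rfl⟩ := hr i
        have hz : h ^ c ∈ A := A.zpow_mem hh c
        have h1 := (hN _ hz y hy).2
        have h2 := h1 k r (by rw [abs_of_nonneg hr0]; omega)
        rw [← line_zpow hLt c r, hLf r (by rw [abs_of_nonneg hr0]; omega)]
        rw [mul_smul, mul_smul, inv_smul_eq_iff] at h2
        exact h2
      refine ⟨L, hLf, fun _ => ⟨hL, ?_⟩⟩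
      intro g w hw hgw i
      obtain ⟨c, r, hr0, hra, rfl⟩ := hr i
      have hw1 := abs_le.1 (hw k)
      have hc := comm_zpow (hN h hh) (comm_mem (K := K) (by omega) hw hv hgw ht) c
      have e1 : g • L (r + c * v k) = (g * h ^ c * g⁻¹ * (h ^ c)⁻¹) • (h ^ c) • g • L r := by
        rw [← line_zpow hLt c r]
        simp only [← mul_smul]
        congr 1
        group
      have e2 : g • L r = L (r + w k) := by
        rw [hLf r (by rw [abs_of_nonneg hr0]; omega), hLf (r + w k) (by rw [abs_le]; constructor <;> omega)]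
        exact hgw k r (by rw [abs_of_nonneg hr0]; omega)
      rw [e1, e2, line_zpow hLt c (r + w k), hfix _ hc]
      congr 1
      ring
    · exact ⟨f k, fun _ _ => rfl, fun h => absurd h hP⟩
  choose L hLf hLP using hline
  have hv0 : ∀ k, ¬ P k → ∀ (h : G) (v : Fin n → ℤ), (∀ k, |v k| ≤ a) → Trn m f h v → v k = 0 := by
    intro k hk h v hv ht
    by_contra hcon
    exact hk ⟨h, v, hv, ht, hcon⟩
  let R : G → (Fin n → ℤ) → Prop := fun x t => ∀ k, (P k → ∀ i, x • L k i = L k (i + t k)) ∧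
    (¬ P k → t k = 0 ∧ ∀ i : ℤ, |i| ≤ m → x • f k i = f k i)
  have hRm : ∀ x y t s, R x t → R y s → R (x * y) (t + s) := by
    intro x y t s hx hy k
    refine ⟨fun hk i => ?_, fun hk => ⟨?_, fun i hi => ?_⟩⟩
    · rw [mul_smul, (hy k).1 hk, (hx k).1 hk]
      congr 1
      show i + s k + t k = i + (t k + s k)
      ring
    · show t k + s k = 0
      rw [((hx k).2 hk).1, ((hy k).2 hk).1, add_zero]
    · rw [mul_smul, ((hy k).2 hk).2 i hi, ((hx k).2 hk).2 i hi]
  have hRi : ∀ x t, R x t → R x⁻¹ (-t) := by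
    intro x t hx k
    refine ⟨fun hk i => ?_, fun hk => ⟨?_, fun i hi => ?_⟩⟩
    · rw [inv_smul_eq_iff, (hx k).1 hk]
      congr 1
      show i = i + -t k + t k
      ring
    · show -t k = 0
      rw [((hx k).2 hk).1, neg_zero]
    · rw [inv_smul_eq_iff, ((hx k).2 hk).2 i hi]
  have hR1 : R 1 0 := by
    intro k
    refine ⟨fun _ i => ?_, fun _ => ⟨rfl, fun i _ => one_smul _ _⟩⟩
    rw [one_smul]
    congr 1
    show i = i + 0
    ring
  have hRT : ∀ (h : G) (v : Fin n → ℤ), (∀ k, |v k| ≤ a) → Trn m f h v → R h v := by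
    intro h v hv ht k
    refine ⟨fun hk => (hLP k hk).2 h v hv ht, fun hk => ?_⟩
    have h0 := hv0 k hk h v hv ht
    refine ⟨h0, fun i hi => ?_⟩
    have h1 := ht k i hi
    rwa [h0, add_zero] at h1
  have hRe : ∀ x ∈ A, ∃ t, R x t := by
    intro x hx
    rw [hA] at hx
    induction hx using Subgroup.closure_induction with
    | mem x hx =>
      obtain ⟨v, hv, h⟩ := hx
      exact ⟨v, hRT x v hv h⟩
    | one => exact ⟨0, hR1⟩
    | mul x z _ _ ihx ihz =>
      obtain ⟨t, ht⟩ := ihx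
      obtain ⟨s, hs⟩ := ihz
      exact ⟨t + s, hRm _ _ _ _ ht hs⟩
    | inv x _ ih =>
      obtain ⟨t, ht⟩ := ih
      exact ⟨-t, hRi _ _ ht⟩
  have hRu : ∀ x t s, R x t → R x s → t = s := by
    intro x t s ht hs
    funext k
    by_cases hk : P k
    · have h1 := (ht k).1 hk 0
      rw [(hs k).1 hk 0] at h1
      have h2 := line_inj (hLP k hk).1 h1
      omega
    · rw [((ht k).2 hk).1, ((hs k).2 hk).1]
  let τ : G → Fin n → ℤ := fun x => if h : ∃ t, R x t then h.choose else 0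
  have hτ : ∀ x t, R x t → τ x = t := by
    intro x t ht
    have h : ∃ t, R x t := ⟨t, ht⟩
    have e : τ x = h.choose := dif_pos h
    rw [e]
    exact hRu x _ _ h.choose_spec ht
  have hτR : ∀ x ∈ A, R x (τ x) := by
    intro x hx
    obtain ⟨t, ht⟩ := hRe x hx
    rw [hτ x t ht]
    exact ht
  refine ⟨L, τ, ⟨?_, ?_, ?_⟩, fun h v hv ht => hτ h v (hRT h v hv ht)⟩
  · intro x hx y hy
    exact hτ _ _ (hRm _ _ _ _ (hτR x hx) (hτR y hy))
  · intro k
    by_cases hk : P k
    · exact Or.inl ⟨(hLP k hk).1, fun x hx => (hτR x hx k).1 hk⟩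
    · exact Or.inr fun x hx => ((hτR x hx k).2 hk).1
  · refine hfin.subset ?_
    rintro x ⟨hx, h0⟩
    have hR := hτR x hx
    rw [h0] at hR
    intro k i hi
    have him : |i| ≤ (m : ℤ) := hi.trans (by exact_mod_cast (by omega : K ≤ m))
    by_cases hk : P k
    · have h1 := (hR k).1 hk i
      have e : i + (0 : Fin n → ℤ) k = i := by
        show i + 0 = i
        ring
      rw [e, hLf k i him] at h1
      exact h1
    · exact ((hR k).2 hk).2 i him

end Pool.Agent.H37.PT
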