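import Pool.Agent.H37.PT.Defs

/-!
# The stabilisers of boxes
-/

set_option autoImplicit false

namespace Pool.Agent.H37.PT

open Pool.Agent.H98.FJ Pool.Agent.H93.TR Pool.Agent.H54.AX

variable {G : Type} [Group G] {n : ℕ} {V : Fin n → Type} [∀ k, MulAction G (V k)] {T : ∀ k, SimpleGraph (V k)}

theorem fx_anti {m m' : ℕ} (h : m ≤ m') (f : ∀ k, ℤ → V k) : Fx G m' f ≤ Fx G m f :=
  fun _ hg k i hi => hg k i (hi.trans (by exact_mod_cast h))

theorem fx_card {k N : ℕ} (hA : Ac G T k N) {m K : ℕ} {f : ∀ k, ℤ → V k} (hf : Geo T m f) (hK : K ≤ m) (hk : k ≤ 2 * K) :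
    (Fx G K f : Set G).encard ≤ N := by
  refine (Set.encard_le_encard ?_).trans (hA (fun j => f j (-K)) (fun j => f j K) (fun j => ?_))
  · intro g hg j
    exact ⟨hg j _ (by rw [abs_neg, abs_of_nonneg (by positivity)]), hg j _ (by rw [abs_of_nonneg (by positivity)])⟩
  · have h := hf j (-K) K (by rw [abs_neg, abs_of_nonneg (by positivity)]; exact_mod_cast hK)
      (by rw [abs_of_nonneg (by positivity)]; exact_mod_cast hK)
    have h2 : |(-(K : ℤ)) - K| = 2 * K := by
      rw [abs_of_nonpos (by omega)]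
      ring
    rw [h2] at h
    have h3 : (T j).dist (f j (-K)) (f j K) = 2 * K := by exact_mod_cast h
    rw [h3]
    exact hk

theorem exists_stable {k N : ℕ} (hA : Ac G T k N) {m : ℕ} {f : ∀ k, ℤ → V k} (hf : Geo T m f) {K0 : ℕ}
    (hk : k ≤ 2 * K0) (a : ℕ) (hm : K0 + (N + 1) * a ≤ m) :
    ∃ K, K0 ≤ K ∧ K + a ≤ K0 + (N + 1) * a ∧ Fx G K f = Fx G (K + a) f := by
  by_contra hcon
  push Not at hcon
  have key : ∀ j : ℕ, j ≤ N + 1 → (Fx G (K0 + j * a) f : Set G).encard + j ≤ N := by
    intro j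
    induction j with
    | zero =>
      intro _
      rw [zero_mul, add_zero, Nat.cast_zero, add_zero]
      exact fx_card hA hf (by nlinarith) hk
    | succ j ih =>
      intro hj
      have h1 := ih (by omega)
      have h2 : Fx G (K0 + j * a) f ≠ Fx G (K0 + j * a + a) f := by
        refine hcon (K0 + j * a) (by omega) ?_
        have : (j + 1) * a ≤ (N + 1) * a := Nat.mul_le_mul_right a hj
        nlinarith
      have e : K0 + (j + 1) * a = K0 + j * a + a := by ring
      rw [e]
      have h3 : (Fx G (K0 + j * a + a) f : Set G) ⊂ (Fx G (K0 + j * a) f : Set G) :=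
        lt_of_le_of_ne (fx_anti (by omega) f) (fun h => h2 (SetLike.coe_injective h).symm)
      have hfin : (Fx G (K0 + j * a) f : Set G).Finite := by
        refine Set.finite_of_encard_le_coe (k := N) ?_
        exact (le_add_right le_rfl).trans h1
      have h4 : (Fx G (K0 + j * a + a) f : Set G).encard + 1 ≤ (Fx G (K0 + j * a) f : Set G).encard := by
        have h5 := (hfin.subset h3.subset).encard_lt_encard h3
        exact Order.add_one_le_of_lt h5
      calc (Fx G (K0 + j * a + a) f : Set G).encard + ((j + 1 : ℕ) : ℕ∞)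
          = (Fx G (K0 + j * a + a) f : Set G).encard + 1 + j := by push_cast; ring
        _ ≤ (Fx G (K0 + j * a) f : Set G).encard + j := by gcongr
        _ ≤ N := h1
  have h := key (N + 1) le_rfl
  have h2 : ((N + 1 : ℕ) : ℕ∞) ≤ N := (le_add_left le_rfl).trans h
  have h3 : N + 1 ≤ N := by exact_mod_cast h2
  omega

theorem conj_mem {K a m : ℕ} {f : ∀ k, ℤ → V k} (hF : Fx G K f = Fx G (K + a) f) (hm : K + a ≤ m) {g : G}
    {v : Fin n → ℤ} (hv : ∀ k, |v k| ≤ a) (hg : Trn m f g v) {x : G} (hx : x ∈ Fx G K f) :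
    g * x * g⁻¹ ∈ Fx G K f ∧ g⁻¹ * x * g ∈ Fx G K f := by
  have hx' : x ∈ Fx G (K + a) f := hF ▸ hx
  constructor
  · intro k i hi
    have h1 := abs_le.1 (hv k)
    have h2 := abs_le.1 hi
    have e1 : g • f k (i - v k) = f k i := by
      have h := hg k (i - v k) (by rw [abs_le]; constructor <;> omega)
      rwa [sub_add_cancel] at h
    have e2 : g⁻¹ • f k i = f k (i - v k) := by rw [inv_smul_eq_iff, e1]
    rw [mul_smul, mul_smul, e2, hx' k (i - v k) (by rw [abs_le]; push_cast; constructor <;> omega), e1]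
  · intro k i hi
    have h1 := abs_le.1 (hv k)
    have h2 := abs_le.1 hi
    have e1 : g • f k i = f k (i + v k) := hg k i (by rw [abs_le]; constructor <;> omega)
    rw [mul_smul, mul_smul, e1, hx' k (i + v k) (by rw [abs_le]; push_cast; constructor <;> omega), ← e1, inv_smul_smul]

theorem comm_mem {K a m : ℕ} {f : ∀ k, ℤ → V k} (hm : K + 2 * a ≤ m) {g h : G} {v w : Fin n → ℤ} (hv : ∀ k, |v k| ≤ a)
    (hw : ∀ k, |w k| ≤ a) (hg : Trn m f g v) (hh : Trn m f h w) : g * h * g⁻¹ * h⁻¹ ∈ Fx G K f := by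
  intro k i hi
  have h1 := abs_le.1 (hv k)
  have h2 := abs_le.1 (hw k)
  have h3 := abs_le.1 hi
  have e1 : h⁻¹ • f k i = f k (i - w k) := by
    rw [inv_smul_eq_iff]
    have h := hh k (i - w k) (by rw [abs_le]; constructor <;> omega)
    rw [sub_add_cancel] at h
    exact h.symm
  have e2 : g⁻¹ • f k (i - w k) = f k (i - w k - v k) := by
    rw [inv_smul_eq_iff]
    have h := hg k (i - w k - v k) (by rw [abs_le]; constructor <;> omega)
    rw [sub_add_cancel] at h
    exact h.symm
  have e3 : h • f k (i - w k - v k) = f k (i - v k) := by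
    have h := hh k (i - w k - v k) (by rw [abs_le]; constructor <;> omega)
    rw [h]
    congr 1
    ring
  have e4 : g • f k (i - v k) = f k i := by
    have h := hg k (i - v k) (by rw [abs_le]; constructor <;> omega)
    rwa [sub_add_cancel] at h
  rw [mul_smul, mul_smul, mul_smul, e1, e2, e3, e4]

end Pool.Agent.H37.PT
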