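import Pool.Agent.H37.PT.Lin
import Pool.Agent.H76.VC.Ab

/-!
# The centraliser of a translation

`x` translates the line `L` by `t ≠ 0`. `D` = the centraliser of `x` (in fact `ε = 1` always, since `g` commutes with `x`). Every `g ∈ D` preserves the line: `g • L (l t) = x ^ l • g • L 0`
and `L (l t) = x ^ l • L 0` are at distance `X.dist (g • L 0) (L 0)`, so `Pool.Agent.H54.AX.cross` (for `L` and `g • L`, and with `g⁻¹`)
applies; `g • L i = L (ε i + c)`, `ε = 1` or `-1`, `c` depending on `g` (a distance preserving bijection of the integers). `D0` = the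
elements with `ε = 1`: index at most `2`; `c : D0 → ℤ` is a homomorphism, `c x = t`, the kernel `K` fixes `L 0`, so `K` is in `C`
(`Pool.Agent.H98.FJ.Inherits.of_injective`). `D1` = the elements of `D0` with `t ∣ c`: index `|t|` in `D0`; `D1` embeds in
`stabilizer (L 0) × Multiplicative ℤ` by `g ↦ (g x ^ (- c g / t), c g / t)` (a homomorphism since `x` is central in `D`).
`Pool.Agent.H76.VC.prod_mem`, `hC.index`.
-/

set_option autoImplicit false

namespace Pool.Agent.H37.PT

open Pool.Agent.H98.FJ Pool.Agent.H93.TR Pool.Agent.H54.AX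

private theorem cn_dist {G V : Type} [Group G] [MulAction G V] {X : SimpleGraph V} (hX : OnTree G X) (g : G) (v w : V) :
    X.dist (g • v) (g • w) = X.dist v w := by
  have key : ∀ (g : G) (v w : V), X.dist (g • v) (g • w) ≤ X.dist v w := by
    intro g v w
    obtain ⟨p, hp⟩ := (hX.tree.connected v w).exists_walk_length_eq_dist
    let φ : X →g X := ⟨fun u => g • u, fun {a b} h => hX.adj g a b h⟩
    rw [← hp]
    have h1 := SimpleGraph.dist_le (p.map φ)
    rw [SimpleGraph.Walk.length_map] at h1
    exact h1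
  refine le_antisymm (key g v w) ?_
  have h2 := key g⁻¹ (g • v) (g • w)
  rwa [inv_smul_smul, inv_smul_smul] at h2

private theorem cn_inj {V : Type} {X : SimpleGraph V} {L : ℤ → V} (hL : Line X L) {i j : ℤ} (h : L i = L j) : i = j := by
  have h1 := hL i j
  rw [h, SimpleGraph.dist_self] at h1
  have h2 : |i - j| = 0 := by
    rw [← h1]
    rfl
  have h3 := abs_eq_zero.1 h2
  omega

/-- a distance preserving map of the integers which commutes with a translation is a translation -/
private theorem cn_iso {φ : ℤ → ℤ} (h : ∀ i j, |φ i - φ j| = |i - j|) {t : ℤ} (ht : t ≠ 0) (hφ : ∀ i, φ (i + t) = φ i + t) :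
    ∀ i, φ i = i + φ 0 := by
  intro i
  by_contra hne
  have h0 := h i 0
  have h1 : φ i - φ 0 = -i := by
    rw [sub_zero] at h0
    rcases abs_eq_abs.1 h0 with h2 | h2
    · exact absurd (by omega) hne
    · exact h2
  have hi : i ≠ 0 := by
    rintro rfl
    exact hne (by omega)
  have h2 := h i (0 + t)
  rw [hφ, zero_add] at h2
  rcases abs_eq_abs.1 h2 with h5 | h5
  · omega
  · omega

theorem cen_line {C : (G : Type) → [Group G] → Prop} (hC : Inherits C) {G V : Type} [Group G] [MulAction G V]
    {X : SimpleGraph V} (hX : OnTree G X) {L : ℤ → V} (hL : Line X L) (h0 : C (MulAction.stabilizer G (L 0))) {x : G}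
    {t : ℤ} (ht : t ≠ 0) (hx : ∀ i, x • L i = L (i + t)) : C (Subgroup.centralizer {x} : Subgroup G) := by
  classical
  -- every element of the centraliser translates the line
  have hpow : ∀ (l i : ℤ), x ^ l • L i = L (i + l * t) := fun l i => line_zpow hx l i
  have htr : ∀ g ∈ Subgroup.centralizer {x}, ∃ c : ℤ, ∀ i, g • L i = L (i + c) := by
    intro g hg
    have hgx : g * x = x * g := Subgroup.mem_centralizer_singleton_iff.1 hg
    have hcm : ∀ l : ℤ, g * x ^ l = x ^ l * g := fun l => ((show Commute g x from hgx).zpow_right l).eq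
    have hgL : Line X (fun i => g • L i) := by
      intro i j
      rw [cn_dist hX]
      exact hL i j
    have hd : ∀ l : ℤ, X.dist (L (l * t)) (g • L (l * t)) ≤ X.dist (L 0) (g • L 0) := by
      intro l
      have e : L (l * t) = x ^ l • L 0 := by rw [hpow, zero_add]
      rw [e, ← mul_smul, hcm, mul_smul, cn_dist hX]
    have h1 : ∀ i, ∃ j, g • L i = L j := fun i => cross hX.tree hgL hL ht ht hd i
    choose φ hφ using h1
    have hi : ∀ i j, |φ i - φ j| = |i - j| := by
      intro i j
      rw [← hL (φ i) (φ j), ← hφ, ← hφ, cn_dist hX]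
      exact hL i j
    have ht' : ∀ i, φ (i + t) = φ i + t := by
      intro i
      refine cn_inj hL ?_
      rw [← hφ, ← hx, ← hx, ← hφ, ← mul_smul, ← mul_smul, hgx]
    refine ⟨φ 0, fun i => ?_⟩
    rw [hφ, cn_iso hi ht ht' i]
  choose! c hc using htr
  have hcmul : ∀ g ∈ Subgroup.centralizer {x}, ∀ h ∈ Subgroup.centralizer {x}, c (g * h) = c g + c h := by
    intro g hg h hh
    have h1 := hc (g * h) (mul_mem hg hh) 0
    rw [mul_smul, hc h hh, hc g hg] at h1
    have h2 := cn_inj hL h1
    omega
  let cD : Subgroup.centralizer {x} →* Multiplicative ℤ :=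
    MonoidHom.mk' (fun g => Multiplicative.ofAdd (c g)) (by
      intro g h
      rw [← ofAdd_add]
      exact congrArg _ (hcmul g g.2 h h.2))
  have hN : NeZero t.natAbs := ⟨Int.natAbs_ne_zero.2 ht⟩
  let ψ : Subgroup.centralizer {x} →* Multiplicative (ZMod t.natAbs) :=
    (AddMonoidHom.toMultiplicative (Int.castAddHom (ZMod t.natAbs))).comp cD
  have hfin : ψ.ker.FiniteIndex := Subgroup.finiteIndex_ker ψ
  refine hC.index _ ψ.ker hfin ?_
  have hdiv : ∀ g : ψ.ker, t ∣ c (g : Subgroup.centralizer {x}) := by
    intro g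
    have h1 : ((c ((g : Subgroup.centralizer {x}) : G) : ℤ) : ZMod t.natAbs) = 0 := g.2
    rw [ZMod.intCast_zmod_eq_zero_iff_dvd] at h1
    exact Int.natAbs_dvd.1 h1
  choose q hq using hdiv
  have hqm : ∀ g h : ψ.ker, q (g * h) = q g + q h := by
    intro g h
    have h1 := hcmul (g : Subgroup.centralizer {x}) (g : Subgroup.centralizer {x}).2 (h : Subgroup.centralizer {x})
      (h : Subgroup.centralizer {x}).2
    rw [hq g, hq h] at h1
    have h2 := hq (g * h)
    have h3 : t * q (g * h) = t * (q g + q h) := by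
      rw [← h2, mul_add, ← h1]
      rfl
    exact mul_left_cancel₀ ht h3
  have hcx : ∀ (g : ψ.ker) (l : ℤ), ((g : Subgroup.centralizer {x}) : G) * x ^ l = x ^ l * ((g : Subgroup.centralizer {x}) : G) := by
    intro g l
    have hgx := Subgroup.mem_centralizer_singleton_iff.1 (g : Subgroup.centralizer {x}).2
    exact ((show Commute ((g : Subgroup.centralizer {x}) : G) x from hgx).zpow_right l).eq
  have hst : ∀ g : ψ.ker, ((g : Subgroup.centralizer {x}) : G) * x ^ (-q g) ∈ MulAction.stabilizer G (L 0) := by
    intro g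
    rw [MulAction.mem_stabilizer_iff, mul_smul, hpow, hc _ (g : Subgroup.centralizer {x}).2, hq g]
    congr 1
    ring
  let Φ : ψ.ker →* MulAction.stabilizer G (L 0) × Multiplicative ℤ :=
    MonoidHom.mk' (fun g => (⟨((g : Subgroup.centralizer {x}) : G) * x ^ (-q g), hst g⟩, Multiplicative.ofAdd (q g))) (by
      intro g h
      refine Prod.ext (Subtype.ext ?_) ?_
      · show ((g : Subgroup.centralizer {x}) : G) * ((h : Subgroup.centralizer {x}) : G) * x ^ (-q (g * h)) =
          ((g : Subgroup.centralizer {x}) : G) * x ^ (-q g) * (((h : Subgroup.centralizer {x}) : G) * x ^ (-q h))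
        rw [hqm, neg_add, zpow_add]
        calc ((g : Subgroup.centralizer {x}) : G) * ((h : Subgroup.centralizer {x}) : G) * (x ^ (-q g) * x ^ (-q h))
            = ((g : Subgroup.centralizer {x}) : G) * (((h : Subgroup.centralizer {x}) : G) * x ^ (-q g)) * x ^ (-q h) := by group
          _ = ((g : Subgroup.centralizer {x}) : G) * (x ^ (-q g) * ((h : Subgroup.centralizer {x}) : G)) * x ^ (-q h) := by
            rw [hcx h]
          _ = _ := by group
      · show Multiplicative.ofAdd (q (g * h)) = Multiplicative.ofAdd (q g) * Multiplicative.ofAdd (q h)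
        rw [hqm, ofAdd_add])
  refine hC.of_injective Φ ?_ (Pool.Agent.H76.VC.prod_mem hC h0 hC.int)
  rw [injective_iff_map_eq_one]
  intro g hg
  have h1 : q g = 0 := congrArg (fun p => Multiplicative.toAdd p.2) hg
  have h2 : ((g : Subgroup.centralizer {x}) : G) * x ^ (-q g) = 1 := congrArg (fun p => (p.1 : G)) hg
  rw [h1, neg_zero, zpow_zero, mul_one] at h2
  exact Subtype.ext (Subtype.ext h2)

end Pool.Agent.H37.PT
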