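import Mathlib
import Pool.Agent.H52.FR.Gr

/-!
# The tree dual to a nested family of half-spaces

`Nest O`: a family of subsets closed under complements, without the empty set; two points are separated by finitely many of them;
any two are nested. `Vx O`: the vertices of the dual tree: sets `U ⊆ O` which contain exactly one of `h`, `hᶜ`, are closed upwards,
and with finitely many members which do not contain a given point. `dual O`: two vertices are adjacent if they differ by one
half-space and its complement. `ev x`: the half-spaces which contain `x`.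

Proof of `dual_tree`. Root `ev x`, height of `U` = the number of `h ∈ U` with `x ∉ h`. These `h` form a chain: `h ∪ k ≠ univ` since `x`
is outside, `Disjoint h k` gives `h ⊆ kᶜ ∈ U`. If `h` is the smallest one (`U ≠ ev x`), then `(U \ {h}) ∪ {hᶜ}` is a vertex of smaller
height by one: closed upwards, because if `hᶜ ⊆ l`, `lᶜ ∈ U` then `x ∉ lᶜ ⊆ h`, so `lᶜ = h`; and no `k ∈ U`, `k ≠ h` is contained in `h`.
It is the only neighbour of smaller height (if `(U \ {h'}) ∪ {h'ᶜ}` is a vertex, `x ∉ h'`, then `h'` is minimal in the chain). Every edge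
changes the height by one. So `dual O` is connected, and acyclic (every cycle has a vertex of maximal height with two different
neighbours of smaller height).

Proof of `dual_dist`. Along a walk from `ev x` to `ev y` every `h` with `x ∈ h`, `y ∉ h` has to be flipped: `≥`. `≤`: height of `ev x`
over the root `ev y`.
-/

set_option autoImplicit false

namespace Pool.Agent.H37.PT

open Set

variable {V : Type}

/-- a nested family of half-spaces -/
structure Nest (O : Set (Set V)) : Prop where
  compl : ∀ h ∈ O, hᶜ ∈ O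
  fin : ∀ x y, {h ∈ O | x ∈ h ∧ y ∉ h}.Finite
  ne : ∀ h ∈ O, h.Nonempty
  nest : ∀ h ∈ O, ∀ k ∈ O, h ⊆ k ∨ k ⊆ h ∨ Disjoint h k ∨ h ∪ k = univ

/-- the vertices of the dual tree -/
structure Vx (O : Set (Set V)) : Type where
  U : Set (Set V)
  sub : U ⊆ O
  one : ∀ h ∈ O, (h ∈ U ↔ hᶜ ∉ U)
  up : ∀ h ∈ U, ∀ k ∈ O, h ⊆ k → k ∈ U
  fin : ∀ x, {h ∈ U | x ∉ h}.Finite

theorem Vx.ext' {O : Set (Set V)} {a b : Vx O} (h : a.U = b.U) : a = b := by
  cases a
  cases b
  cases h
  rfl

/-- the dual graph -/
def dual (O : Set (Set V)) : SimpleGraph (Vx O) where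
  Adj a b := ∃ h ∈ a.U, b.U = (a.U \ {h}) ∪ {hᶜ}
  symm := ⟨by
    rintro a b ⟨h, ha, hb⟩
    have hne : h ≠ hᶜ := fun e => by
      have := (a.one h (a.sub ha)).1 ha
      rw [← e] at this
      exact this ha
    refine ⟨hᶜ, by rw [hb]; exact Or.inr rfl, ?_⟩
    rw [hb, compl_compl]
    have h1 := (a.one h (a.sub ha)).1 ha
    ext k
    simp only [mem_union, mem_diff, mem_singleton_iff]
    constructor
    · intro hk
      by_cases e : k = h
      · exact Or.inr e
      · refine Or.inl ⟨Or.inl ⟨hk, e⟩, fun e' => h1 (e' ▸ hk)⟩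
    · rintro (⟨(h2 | h2), h3⟩ | h2)
      · exact h2.1
      · exact absurd h2 h3
      · exact h2 ▸ ha⟩
  loopless := ⟨by
    rintro a ⟨h, ha, hb⟩
    have h1 := (a.one h (a.sub ha)).1 ha
    apply h1
    rw [hb]
    exact Or.inr rfl⟩

/-- the vertex of a point -/
def ev {O : Set (Set V)} (hO : Nest O) (x : V) : Vx O where
  U := {h ∈ O | x ∈ h}
  sub := fun _ h => h.1
  one := by
    intro h hh
    constructor
    · rintro h1 ⟨-, h2⟩
      exact h2 h1.2
    · intro h1
      refine ⟨hh, ?_⟩
      by_contra hc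
      exact h1 ⟨hO.compl h hh, hc⟩
  up := fun _ hh k hk hs => ⟨hk, hs hh.2⟩
  fin := by
    intro y
    refine (hO.fin x y).subset ?_
    rintro h ⟨⟨h1, h2⟩, h3⟩
    exact ⟨h1, h2, h3⟩

section

variable {O : Set (Set V)}

/-- the members which do not contain `x` -/
private def Dx (x : V) (a : Vx O) : Set (Set V) := {h ∈ a.U | x ∉ h}

private theorem not_both {a : Vx O} {h : Set V} (h1 : h ∈ a.U) (h2 : hᶜ ∈ a.U) : False :=
  (a.one h (a.sub h1)).1 h1 h2

private theorem ne_compl {a : Vx O} {h : Set V} (h1 : h ∈ a.U) : h ≠ hᶜ := fun e => not_both h1 (e ▸ h1)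

private theorem dx_down {a b : Vx O} {h : Set V} {x : V} (hb : b.U = (a.U \ {h}) ∪ {hᶜ}) (hx : x ∉ h) :
    Dx x b = Dx x a \ {h} := by
  ext k
  simp only [Dx, mem_setOf_eq, hb, mem_union, mem_diff, mem_singleton_iff]
  constructor
  · rintro ⟨(⟨h1, h2⟩ | h1), h3⟩
    · exact ⟨⟨h1, h3⟩, h2⟩
    · exact absurd (by rw [h1]; exact hx) h3
  · rintro ⟨⟨h1, h2⟩, h3⟩
    exact ⟨Or.inl ⟨h1, h3⟩, h2⟩

private theorem dx_up {a b : Vx O} {h : Set V} {x : V} (hb : b.U = (a.U \ {h}) ∪ {hᶜ}) (hx : x ∈ h) :
    Dx x b = insert hᶜ (Dx x a) := by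
  ext k
  simp only [Dx, mem_setOf_eq, hb, mem_union, mem_diff, mem_singleton_iff, mem_insert_iff]
  constructor
  · rintro ⟨(⟨h1, h2⟩ | h1), h3⟩
    · exact Or.inr ⟨h1, h3⟩
    · exact Or.inl h1
  · rintro (h1 | ⟨h1, h2⟩)
    · refine ⟨Or.inr h1, ?_⟩
      rw [h1]
      exact fun h3 => h3 hx
    · refine ⟨Or.inl ⟨h1, fun e => h2 (by rw [e]; exact hx)⟩, h2⟩

/-- a flip of a member which does not contain `x` makes the height smaller by one, the other flips make it larger by one -/
private theorem ht_flip {a b : Vx O} {h : Set V} (x : V) (ha : h ∈ a.U) (hb : b.U = (a.U \ {h}) ∪ {hᶜ}) :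
    (x ∉ h ∧ (Dx x b).ncard + 1 = (Dx x a).ncard) ∨ (x ∈ h ∧ (Dx x b).ncard = (Dx x a).ncard + 1) := by
  by_cases hx : x ∈ h
  · refine Or.inr ⟨hx, ?_⟩
    rw [dx_up hb hx]
    refine ncard_insert_of_notMem ?_ (a.fin x)
    exact fun h1 => not_both ha h1.1
  · refine Or.inl ⟨hx, ?_⟩
    rw [dx_down hb hx]
    exact ncard_diff_singleton_add_one ⟨ha, hx⟩ (a.fin x)

private theorem ht_adj {a b : Vx O} (x : V) (hab : (dual O).Adj a b) :
    (Dx x b).ncard + 1 = (Dx x a).ncard ∨ (Dx x b).ncard = (Dx x a).ncard + 1 := by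
  obtain ⟨h, ha, hb⟩ := hab
  rcases ht_flip x ha hb with h1 | h1
  · exact Or.inl h1.2
  · exact Or.inr h1.2

private theorem ht_walk (x : V) {a b : Vx O} (p : (dual O).Walk a b) : (Dx x a).ncard ≤ (Dx x b).ncard + p.length := by
  induction p with
  | nil => exact Nat.le_refl _
  | cons h p ih =>
    rw [SimpleGraph.Walk.length_cons]
    rcases ht_adj x h with h1 | h1 <;> omega

private theorem lower_unique (hO : Nest O) (x : V) {a b c : Vx O} (hab : (dual O).Adj a b) (hac : (dual O).Adj a c)
    (hb : (Dx x b).ncard < (Dx x a).ncard) (hc : (Dx x c).ncard < (Dx x a).ncard) : b = c := by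
  obtain ⟨h, ha, eb⟩ := hab
  obtain ⟨k, ka, ec⟩ := hac
  have hx : x ∉ h := by
    rcases ht_flip x ha eb with h1 | h1
    · exact h1.1
    · exact absurd h1.2 (by omega)
  have kx : x ∉ k := by
    rcases ht_flip x ka ec with h1 | h1
    · exact h1.1
    · exact absurd h1.2 (by omega)
  have hnb : h ∉ b.U := by
    rw [eb]
    rintro (h1 | h1)
    · exact h1.2 rfl
    · exact ne_compl ha h1
  have knc : k ∉ c.U := by
    rw [ec]
    rintro (h1 | h1)
    · exact h1.2 rfl
    · exact ne_compl ka h1
  have e : h = k := by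
    by_contra hne
    rcases hO.nest h (a.sub ha) k (a.sub ka) with h1 | h1 | h1 | h1
    · refine knc (c.up h ?_ k (a.sub ka) h1)
      rw [ec]
      exact Or.inl ⟨ha, hne⟩
    · refine hnb (b.up k ?_ h (a.sub ha) h1)
      rw [eb]
      exact Or.inl ⟨ka, fun e => hne e.symm⟩
    · refine not_both ka (a.up h ha kᶜ (hO.compl k (a.sub ka)) ?_)
      exact h1.subset_compl_right
    · have h2 : x ∈ h ∪ k := by
        rw [h1]
        exact mem_univ x
      rcases h2 with h2 | h2
      · exact hx h2
      · exact kx h2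
  subst e
  exact Vx.ext' (eb.trans ec.symm)

private theorem exists_lower (hO : Nest O) (x : V) (a : Vx O) (ha : (Dx x a).Nonempty) :
    ∃ b : Vx O, (dual O).Adj a b ∧ (Dx x b).ncard + 1 = (Dx x a).ncard := by
  obtain ⟨h, hh⟩ := (a.fin x).exists_minimal ha
  have hU : h ∈ a.U := hh.prop.1
  have hx : x ∉ h := hh.prop.2
  have hmin : ∀ l ∈ a.U, l ⊆ h → l = h := by
    intro l hl hlh
    exact hh.eq_of_subset ⟨hl, fun h1 => hx (hlh h1)⟩ hlh
  have hnc := ne_compl hU
  have hcU : hᶜ ∉ a.U := fun h1 => not_both hU h1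
  let b : Vx O :=
    { U := (a.U \ {h}) ∪ {hᶜ}
      sub := by
        rintro l (hl | hl)
        · exact a.sub hl.1
        · rw [mem_singleton_iff.1 hl]
          exact hO.compl h (a.sub hU)
      one := by
        intro l hl
        simp only [mem_union, mem_diff, mem_singleton_iff, compl_inj_iff, not_or, not_and, not_not]
        by_cases e : l = h
        · subst e
          constructor
          · rintro (h1 | h1)
            · exact absurd rfl h1.2
            · exact absurd h1 hnc
          · rintro ⟨-, h2⟩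
            exact absurd rfl h2
        · by_cases e' : l = hᶜ
          · subst e'
            rw [compl_compl]
            constructor
            · intro _
              exact ⟨fun _ => rfl, fun h2 => hnc h2.symm⟩
            · intro _
              exact Or.inr rfl
          · have e2 : lᶜ ≠ h := fun h1 => e' (by rw [← h1, compl_compl])
            have h1 := a.one l hl
            constructor
            · rintro (h2 | h2)
              · exact ⟨fun h3 => absurd h3 (h1.1 h2.1), e⟩
              · exact absurd h2 e'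
            · rintro ⟨h2, -⟩
              exact Or.inl ⟨h1.2 fun h3 => e2 (h2 h3), e⟩
      up := by
        rintro l hl m hm hlm
        rcases hl with ⟨hl, hne⟩ | hl
        · by_cases e : m = h
          · exact absurd (hmin l hl (e ▸ hlm)) hne
          · exact Or.inl ⟨a.up l hl m hm hlm, e⟩
        · rw [mem_singleton_iff.1 hl] at hlm
          by_cases h1 : m ∈ a.U
          · by_cases e : m = h
            · have h2 : x ∈ m := hlm hx
              exact absurd (e ▸ h2) hx
            · exact Or.inl ⟨h1, e⟩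
          · have h2 : mᶜ ∈ a.U := by
              by_contra h3
              exact h1 ((a.one m hm).2 h3)
            have h3 : mᶜ ⊆ h := compl_subset_comm.1 hlm
            have h4 := hmin mᶜ h2 h3
            refine Or.inr ?_
            rw [mem_singleton_iff, ← h4, compl_compl]
      fin := by
        intro y
        refine ((a.fin y).union (finite_singleton hᶜ)).subset ?_
        rintro l ⟨(hl | hl), hy⟩
        · exact Or.inl ⟨hl.1, hy⟩
        · exact Or.inr hl }
  have hb : b.U = (a.U \ {h}) ∪ {hᶜ} := rfl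
  refine ⟨b, ⟨h, hU, hb⟩, ?_⟩
  rcases ht_flip x hU hb with h1 | h1
  · exact h1.2
  · exact absurd h1.1 hx

private theorem eq_ev (hO : Nest O) (x : V) (a : Vx O) (ha : Dx x a = ∅) : a = ev hO x := by
  have h1 : ∀ h ∈ a.U, x ∈ h := by
    intro h hh
    by_contra hx
    have h2 : h ∈ Dx x a := ⟨hh, hx⟩
    rw [ha] at h2
    exact h2
  refine Vx.ext' (Subset.antisymm (fun h hh => ⟨a.sub hh, h1 h hh⟩) ?_)
  rintro h ⟨hh, hx⟩
  exact (a.one h hh).2 fun h2 => h1 _ h2 hx

private theorem exists_walk (hO : Nest O) (x : V) (n : ℕ) :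
    ∀ a : Vx O, (Dx x a).ncard = n → ∃ p : (dual O).Walk a (ev hO x), p.length = n := by
  induction n with
  | zero =>
    intro a ha
    have h1 : Dx x a = ∅ := (ncard_eq_zero (a.fin x)).1 ha
    rw [eq_ev hO x a h1]
    exact ⟨SimpleGraph.Walk.nil, rfl⟩
  | succ n ih =>
    intro a ha
    have h1 : (Dx x a).Nonempty := nonempty_of_ncard_ne_zero (by omega)
    obtain ⟨b, hab, hb⟩ := exists_lower hO x a h1
    obtain ⟨p, hp⟩ := ih b (by omega)
    refine ⟨SimpleGraph.Walk.cons hab p, ?_⟩
    rw [SimpleGraph.Walk.length_cons, hp]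

end

theorem dual_tree {O : Set (Set V)} (hO : Nest O) (x : V) : (dual O).IsTree := by
  have : Nonempty (Vx O) := ⟨ev hO x⟩
  refine ⟨?_, ?_⟩
  · refine SimpleGraph.Connected.mk fun a b => ?_
    obtain ⟨p, -⟩ := exists_walk hO x _ a rfl
    obtain ⟨q, -⟩ := exists_walk hO x _ b rfl
    exact ⟨p.append q.reverse⟩
  · refine Pool.Agent.H52.FR.acyclic_of_height (dual O) (fun a => (Dx x a).ncard) ?_ ?_
    · intro a b hab
      show (Dx x a).ncard ≠ (Dx x b).ncard
      rcases ht_adj x hab with h1 | h1 <;> omega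
    · intro a b c hab hac hb hc
      exact lower_unique hO x hab hac hb hc

theorem dual_dist {O : Set (Set V)} (hO : Nest O) (x y : V) :
    (dual O).dist (ev hO x) (ev hO y) = {h ∈ O | x ∈ h ∧ y ∉ h}.ncard := by
  have e1 : Dx y (ev hO x) = {h ∈ O | x ∈ h ∧ y ∉ h} := by
    ext h
    exact and_assoc
  have e2 : (Dx y (ev hO y)).ncard = 0 := by
    have h1 : Dx y (ev hO y) = ∅ := by
      ext h
      simp only [mem_empty_iff_false, iff_false]
      rintro ⟨⟨-, h2⟩, h3⟩
      exact h3 h2
    rw [h1, ncard_empty]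
  rw [← e1]
  refine le_antisymm ?_ ?_
  · obtain ⟨p, hp⟩ := exists_walk hO y _ (ev hO x) rfl
    rw [← hp]
    exact (dual O).dist_le p
  · obtain ⟨p, hp⟩ := ((dual_tree hO x).connected.preconnected (ev hO x) (ev hO y)).exists_walk_length_eq_dist
    have h1 := ht_walk y p
    omega

end Pool.Agent.H37.PT
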