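import Pool.Agent.H37.PT.Rk
import Pool.Agent.H37.PT.Cen
import Pool.Agent.H76.VC.ComMem

/-!
# The stabiliser of the root set

`h0 ∈ A` with `τ h0 k ≠ 0` for some `k`. Let `g ∈ St A`. Then `x = g h0 g⁻¹ ∈ Rt A` (`h0 ∈ Rt A`, `g⁻¹ ∈ St A`), `x ^ m ∈ A`, `m > 0`.
CLAIM: `|τ (x ^ m) k| = m |τ h0 k|` for all `k`. If `Ax.act k` is the second case both are `0`. First case: with `p = L k 0`,
`(x ^ m) ^ l • p = L k (l τ (x ^ m) k)`, at distance `l |τ (x ^ m) k|` of `p`; `(x ^ m) ^ l • (g • p) = g • h0 ^ (m l) • p = g • L k (m l τ h0 k)`, at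
distance `l m |τ h0 k|` of `g • p`; the two distances differ by at most `2 (T k).dist p (g • p)` for all `l`.
So there are signs `ε k ∈ {1, -1}` with `τ (x ^ m) k = m ε k τ h0 k`.
If `g`, `g'` have the same signs: `u = x ^ (m m')`, `u' = x' ^ (m m')` are in `A`, `τ u = τ u'`, `pow_eq`: `u ^ e = u' ^ e`, so that
`g h0 ^ M g⁻¹ = g' h0 ^ M g'⁻¹`, `M = m m' e > 0`, and `g'⁻¹ g` commutes with `h0 ^ M`.
So the subgroup `VC = {g : ∃ M > 0, g h0 ^ M = h0 ^ M g}` (`Pool.Agent.H76.VC.VCen h0`, or its own definition) has index at most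
`2 ^ n` in `St A` (a map from the cosets to the signs is injective).
`VC` is in `C`: it is the union of the centralisers of `h0 ^ (j !)`, `j : ℕ` (as in `Pool.Agent.H76.VC.vcen_mem`), which are in `C` by
`cen_line` with `L k` and `t = j ! τ h0 k`, `k` with `τ h0 k ≠ 0` (then `Ax.act k` is the first case; `line_zpow`).
`hC.index` for `St A`.
-/

set_option autoImplicit false

namespace Pool.Agent.H37.PT

open Pool.Agent.H98.FJ Pool.Agent.H93.TR Pool.Agent.H54.AX

variable {G : Type} [Group G] {n : ℕ} {V : Fin n → Type} [∀ k, MulAction G (V k)] {T : ∀ k, SimpleGraph (V k)}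

private theorem cmp_lin {a b : ℤ} {D : ℕ} (h : ∀ l : ℕ, |(l : ℤ) * a - l * b| ≤ D) : a = b := by
  by_contra hne
  have h1 := h (D + 1)
  have h2 : ((D + 1 : ℕ) : ℤ) * a - ((D + 1 : ℕ) : ℤ) * b = ((D : ℤ) + 1) * (a - b) := by
    push_cast
    ring
  rw [h2, abs_mul] at h1
  have h3 : 1 ≤ |a - b| := Int.one_le_abs (sub_ne_zero.2 hne)
  have h4 : |(D : ℤ) + 1| = D + 1 := abs_of_nonneg (by positivity)
  rw [h4] at h1
  nlinarith

/-- the translation lengths of a conjugate in the root set -/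
theorem conj_length (hX : ∀ k, OnTree G (T k)) {A : Subgroup G} {L : ∀ k, ℤ → V k} {τ : G → Fin n → ℤ}
    (hA : Ax T A L τ) {h0 g : G} (h0A : h0 ∈ A) {m : ℕ} (hx : (g * h0 * g⁻¹) ^ m ∈ A) (k : Fin n) :
    |τ ((g * h0 * g⁻¹) ^ m) k| = m * |τ h0 k| := by
  rcases hA.act k with ⟨hL, hact⟩ | h
  · have ht := (hX k).tree
    refine cmp_lin (D := 2 * (T k).dist (L k 0) (g • L k 0)) fun l => ?_
    -- the translation of the line
    have e1 : ((T k).dist (L k 0) (((g * h0 * g⁻¹) ^ m) ^ l • L k 0) : ℤ) = l * |τ ((g * h0 * g⁻¹) ^ m) k| := by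
      have h1 := line_zpow (hact _ hx) (l : ℤ) 0
      rw [zpow_natCast] at h1
      rw [h1, hL]
      have h2 : (0 : ℤ) - (0 + l * τ ((g * h0 * g⁻¹) ^ m) k) = -(l * τ ((g * h0 * g⁻¹) ^ m) k) := by ring
      rw [h2, abs_neg, abs_mul, Nat.abs_cast]
    -- the translation of the translated line
    have e2 : ((T k).dist (g • L k 0) (((g * h0 * g⁻¹) ^ m) ^ l • g • L k 0) : ℤ) = l * (m * |τ h0 k|) := by
      have h1 : ((g * h0 * g⁻¹) ^ m) ^ l • g • L k 0 = g • h0 ^ (m * l) • L k 0 := by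
        rw [← mul_smul, ← mul_smul, ← pow_mul, conj_pow, inv_mul_cancel_right]
      have h2 := line_zpow (hact _ h0A) ((m * l : ℕ) : ℤ) 0
      rw [zpow_natCast] at h2
      rw [h1, h2, dist_smul (hX k), hL]
      have h3 : (0 : ℤ) - (0 + ((m * l : ℕ) : ℤ) * τ h0 k) = -((l : ℤ) * (m * τ h0 k)) := by
        push_cast
        ring
      rw [h3, abs_neg, abs_mul, abs_mul, Nat.abs_cast, Nat.abs_cast]
    rw [← e1, ← e2]
    obtain ⟨w, hw⟩ : ∃ w, w = ((g * h0 * g⁻¹) ^ m) ^ l := ⟨_, rfl⟩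
    rw [← hw]
    have h1 := ht.1.dist_triangle (u := L k 0) (v := g • L k 0) (w := w • L k 0)
    have h2 := ht.1.dist_triangle (u := g • L k 0) (v := w • g • L k 0) (w := w • L k 0)
    have h3 := ht.1.dist_triangle (u := g • L k 0) (v := L k 0) (w := w • g • L k 0)
    have h4 := ht.1.dist_triangle (u := L k 0) (v := w • L k 0) (w := w • g • L k 0)
    have h5 : (T k).dist (w • L k 0) (w • g • L k 0) = (T k).dist (L k 0) (g • L k 0) := dist_smul (hX k) _ _ _
    have h6 : (T k).dist (w • g • L k 0) (w • L k 0) = (T k).dist (L k 0) (g • L k 0) := by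
      rw [SimpleGraph.dist_comm, h5]
    have h7 : (T k).dist (g • L k 0) (L k 0) = (T k).dist (L k 0) (g • L k 0) := SimpleGraph.dist_comm
    rw [abs_le]
    push_cast
    omega
  · rw [h _ hx, h _ h0A, abs_zero, mul_zero]

open Pool.Agent.H76.VC in
private theorem vcen_line {C : (G : Type) → [Group G] → Prop} (hC : Inherits C) {V : Type} [MulAction G V]
    {X : SimpleGraph V} (hX : OnTree G X) {L : ℤ → V} (hL : Line X L) (hst : C (MulAction.stabilizer G (L 0))) {z : G}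
    {t : ℤ} (ht : t ≠ 0) (hz : ∀ i, z • L i = L (i + t)) : C (VCen z) := by
  refine hC.union (G := VCen z) (ι := ℕ)
    (fun n => (Subgroup.centralizer {z ^ (n.factorial : ℤ)} : Subgroup G).subgroupOf (VCen z)) ?_ ?_ ?_
  · intro n m hnm x hx
    rw [Subgroup.mem_subgroupOf, Subgroup.mem_centralizer_singleton_iff] at hx ⊢
    obtain ⟨k, hk⟩ := Nat.factorial_dvd_factorial hnm
    have h1 : Commute (x : G) (z ^ (n.factorial : ℤ)) := hx
    have h2 := h1.zpow_right (k : ℤ)
    rw [← zpow_mul] at h2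
    rw [hk]
    push_cast
    exact h2
  · rintro ⟨g, m, hm, h1⟩
    refine ⟨m.natAbs, ?_⟩
    rw [Subgroup.mem_subgroupOf, Subgroup.mem_centralizer_singleton_iff]
    have h2 : m ∣ (m.natAbs.factorial : ℤ) := by
      rw [← Int.natAbs_dvd]
      exact_mod_cast Nat.dvd_factorial (Int.natAbs_pos.2 hm) le_rfl
    obtain ⟨k, hk⟩ := h2
    have h3 : Commute g (z ^ m) := by
      have h4 : g * z ^ m = z ^ m * g := by
        rw [← mul_inv_eq_iff_eq_mul]
        exact h1
      exact h4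
    have h5 := h3.zpow_right k
    rw [← zpow_mul, ← hk] at h5
    exact h5
  · intro n
    have hn : (n.factorial : ℤ) * t ≠ 0 := mul_ne_zero (by exact_mod_cast Nat.factorial_ne_zero n) ht
    have h1 := cen_line hC hX hL hst hn (line_zpow hz (n.factorial : ℤ))
    refine hC.of_injective (H := (Subgroup.centralizer {z ^ (n.factorial : ℤ)} : Subgroup G))
      { toFun := fun x => ⟨x.1.1, x.2⟩
        map_one' := rfl
        map_mul' := fun _ _ => rfl } ?_ h1
    intro a b hab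
    exact Subtype.ext (Subtype.ext (congrArg
      (fun w : (Subgroup.centralizer {z ^ (n.factorial : ℤ)} : Subgroup G) => (w : G)) hab))

open Pool.Agent.H76.VC in
theorem st_mem {C : (G : Type) → [Group G] → Prop} (hC : Inherits C) (hX : ∀ k, OnTree G (T k))
    (hst : ∀ k (x : V k), C (MulAction.stabilizer G x)) {A : Subgroup G} {L : ∀ k, ℤ → V k} {τ : G → Fin n → ℤ}
    (hA : Ax T A L τ) {h0 : G} (h0A : h0 ∈ A) (hne : τ h0 ≠ 0) : C (St A) := by
  classical
  obtain ⟨k0, hk0⟩ := Function.ne_iff.1 hne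
  have hl : Line (T k0) (L k0) ∧ ∀ x ∈ A, ∀ i, x • L k0 i = L k0 (i + τ x k0) := by
    rcases hA.act k0 with h | h
    · exact h
    · exact absurd (h h0 h0A) hk0
  have hV : C (VCen h0) := vcen_line hC (hX k0) hl.1 (hst k0 _) hk0 (hl.2 h0 h0A)
  -- the powers in `A`
  have hpow : ∀ g : St A, ∃ m : ℕ, 0 < m ∧ ((g : G) * h0 * (g : G)⁻¹) ^ m ∈ A := by
    intro g
    have h1 : (g : G)⁻¹ * ((g : G) * h0 * (g : G)⁻¹) * (g : G) ∈ Rt A := by
      have e : (g : G)⁻¹ * ((g : G) * h0 * (g : G)⁻¹) * (g : G) = h0 := by group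
      rw [e]
      exact ⟨1, one_pos, by rwa [pow_one]⟩
    exact (g.2 _).1 h1
  choose m hm hmA using hpow
  let s : St A → Fin n → Prop := fun g k => τ (((g : G) * h0 * (g : G)⁻¹) ^ m g) k = m g * τ h0 k
  have key : ∀ g g' : St A, s g = s g' → (g : G)⁻¹ * (g' : G) ∈ VCen h0 := by
    intro g g' hs
    have e1 : τ ((((g : G) * h0 * (g : G)⁻¹) ^ m g) ^ m g') = τ ((((g' : G) * h0 * (g' : G)⁻¹) ^ m g') ^ m g) := by
      rw [tau_pow hA.mul (hmA g), tau_pow hA.mul (hmA g')]
      funext k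
      have h1 := conj_length hX hA h0A (hmA g) k
      have h2 := conj_length hX hA h0A (hmA g') k
      have h3 : s g k = s g' k := congrFun hs k
      show m g' • τ (((g : G) * h0 * (g : G)⁻¹) ^ m g) k = m g • τ (((g' : G) * h0 * (g' : G)⁻¹) ^ m g') k
      rw [nsmul_eq_mul, nsmul_eq_mul]
      by_cases h4 : s g k
      · have h5 : s g' k := h3 ▸ h4
        have h6 : τ (((g : G) * h0 * (g : G)⁻¹) ^ m g) k = m g * τ h0 k := h4
        have h7 : τ (((g' : G) * h0 * (g' : G)⁻¹) ^ m g') k = m g' * τ h0 k := h5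
        rw [h6, h7]
        ring
      · have h5 : ¬ s g' k := h3 ▸ h4
        have h8 : ∀ (N : ℕ) (x : ℤ), |x| = N * |τ h0 k| → x ≠ N * τ h0 k → x = -(N * τ h0 k) := by
          intro N x hx hx2
          have h9 : |x| = |(N : ℤ) * τ h0 k| := by rw [hx, abs_mul, Nat.abs_cast]
          rcases abs_eq_abs.1 h9 with h10 | h10
          · exact absurd h10 hx2
          · exact h10
        rw [h8 _ _ h1 h4, h8 _ _ h2 h5]
        ring
    obtain ⟨e, he, h4⟩ := pow_eq hA.mul hA.fin (A.pow_mem (hmA g) _) (A.pow_mem (hmA g') _) e1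
    rw [← pow_mul, ← pow_mul, ← pow_mul, ← pow_mul, conj_pow, conj_pow] at h4
    obtain ⟨M, hM⟩ : ∃ M, M = m g * (m g' * e) := ⟨_, rfl⟩
    have hM0 : 0 < M := hM ▸ Nat.mul_pos (hm g) (Nat.mul_pos (hm g') he)
    have hM2 : m g' * (m g * e) = M := by
      rw [hM]
      ring
    rw [hM2, ← hM] at h4
    refine ⟨(M : ℤ), by exact_mod_cast hM0.ne', ?_⟩
    rw [zpow_natCast]
    have h5 : ((g : G)⁻¹ * (g' : G)) * h0 ^ M * ((g : G)⁻¹ * (g' : G))⁻¹ =
        (g : G)⁻¹ * ((g' : G) * h0 ^ M * (g' : G)⁻¹) * (g : G) := by group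
    rw [h5, ← h4]
    group
  have hfi : ((VCen h0).subgroupOf (St A)).FiniteIndex := by
    have h3 : Finite (St A ⧸ (VCen h0).subgroupOf (St A)) := by
      refine Finite.of_injective (fun q : St A ⧸ (VCen h0).subgroupOf (St A) => s q.out) ?_
      intro q q' hqq
      have h1 := key _ _ hqq
      rw [← QuotientGroup.out_eq' q, ← QuotientGroup.out_eq' q']
      refine (QuotientGroup.eq).2 ?_
      rw [Subgroup.mem_subgroupOf]
      exact h1
    exact Subgroup.finiteIndex_of_finite_quotient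
  refine hC.index _ _ hfi ?_
  refine hC.of_injective (H := VCen h0)
    { toFun := fun x => ⟨x.1.1, x.2⟩
      map_one' := rfl
      map_mul' := fun _ _ => rfl } ?_ hV
  intro a b hab
  exact Subtype.ext (Subtype.ext (congrArg (fun w : VCen h0 => (w : G)) hab))

end Pool.Agent.H37.PT
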