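import Pool.Agent.H37.PT.Axs
import Pool.Agent.H37.PT.Stb

/-!
# Local rigidity of acylindrical actions on products of trees

The object of a box with a nonzero translation is the root set of the group generated by the translations. The radius of the
translations is one of `n` radii: the rank of the group of the translation vectors stops growing at one of them.
-/

set_option autoImplicit false

namespace Pool.Agent.H37.PT

open Pool.Agent.H98.FJ Pool.Agent.H93.TR Pool.Agent.H54.AX

variable {G : Type} [Group G] {n : ℕ} {V : Fin n → Type} [∀ k, MulAction G (V k)] {T : ∀ k, SimpleGraph (V k)}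

/-- the paths of a box, with centre `0` -/
private def bf {r : ℕ} (B : Bx V r) : ∀ k, ℤ → V k := fun k => fb (B k)

private theorem bf_bx {r : ℕ} (δ : Fin n → ℤ) (f : ∀ k, ℤ → V k) (k : Fin n) {i : ℤ} (hi : |i| ≤ r) :
    bf (bx r δ f) k i = f k (δ k + i) := by
  obtain ⟨h1, h2⟩ := abs_le.1 hi
  have h : (i + r).toNat < 2 * r + 1 := by omega
  show fb (bx r δ f k) i = _
  unfold fb
  rw [dif_pos h]
  show f k (δ k - r + (((i + r).toNat : ℕ) : ℤ)) = f k (δ k + i)
  congr 1
  omega

private theorem bf_smul {r : ℕ} (g : G) (B : Bx V r) (k : Fin n) (i : ℤ) : bf (g • B) k i = g • bf B k i :=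
  fb_smul g (B k) i

private theorem trn_smul {m : ℕ} {f : ∀ k, ℤ → V k} {h : G} {v : Fin n → ℤ} (g : G) (ht : Trn m f h v) :
    Trn m (fun k i => g • f k i) (g * h * g⁻¹) v := by
  intro k i hi
  show (g * h * g⁻¹) • g • f k i = g • f k (i + v k)
  rw [mul_smul, inv_smul_smul, mul_smul, ht k i hi]

private theorem trs_smul {m a : ℕ} {f : ∀ k, ℤ → V k} (g : G) {h : G} (hh : h ∈ Trs G m a f) :
    g * h * g⁻¹ ∈ Trs G m a (fun k i => g • f k i) := by
  obtain ⟨v, hv, ht⟩ := hh
  exact ⟨v, hv, trn_smul g ht⟩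

private theorem clo_smul {m a : ℕ} {f : ∀ k, ℤ → V k} (g : G) {x : G} (hx : x ∈ Subgroup.closure (Trs G m a f)) :
    g * x * g⁻¹ ∈ Subgroup.closure (Trs G m a (fun k i => g • f k i)) := by
  induction hx using Subgroup.closure_induction with
  | mem x hx => exact Subgroup.subset_closure (trs_smul g hx)
  | one =>
    rw [mul_one, mul_inv_cancel]
    exact Subgroup.one_mem _
  | mul x y _ _ hx hy =>
    have e : g * (x * y) * g⁻¹ = g * x * g⁻¹ * (g * y * g⁻¹) := by group
    rw [e]
    exact Subgroup.mul_mem _ hx hy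
  | inv x _ hx =>
    have e : g * x⁻¹ * g⁻¹ = (g * x * g⁻¹)⁻¹ := by group
    rw [e]
    exact Subgroup.inv_mem _ hx

private theorem rt_smul {m a : ℕ} {f : ∀ k, ℤ → V k} (g : G) {x : G} (hx : x ∈ Rt (Subgroup.closure (Trs G m a f))) :
    g * x * g⁻¹ ∈ Rt (Subgroup.closure (Trs G m a (fun k i => g • f k i))) := by
  obtain ⟨e, he, h⟩ := hx
  refine ⟨e, he, ?_⟩
  rw [conj_pow]
  exact clo_smul g h

private theorem rt_conj {m a : ℕ} (f : ∀ k, ℤ → V k) (g : G) :
    Rt (Subgroup.closure (Trs G m a (fun k i => g • f k i))) = {x | g⁻¹ * x * g ∈ Rt (Subgroup.closure (Trs G m a f))} := by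
  ext x
  constructor
  · intro hx
    have h := rt_smul g⁻¹ hx
    have e : (fun k i => g⁻¹ • g • f k i) = f := by
      funext k i
      rw [inv_smul_smul]
    rw [e, inv_inv] at h
    exact h
  · intro hx
    have h := rt_smul g hx
    have e : g * (g⁻¹ * x * g) * g⁻¹ = x := by group
    rw [e] at h
    exact h

/-- the axes of a box -/
private theorem box_ax (hX : ∀ k, OnTree G (T k)) {k0 N : ℕ} (hA : Ac G T k0 N) {a m : ℕ} {f : ∀ k, ℤ → V k}
    (hf : Geo T (m + a) f) (hm : k0 + a + (N + 1) * a + 2 * a + 2 ≤ m) :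
    ∃ (L : ∀ k, ℤ → V k) (τ : G → Fin n → ℤ), Ax T (Subgroup.closure (Trs G m a f)) L τ ∧
      ∀ (h : G) (v : Fin n → ℤ), (∀ k, |v k| ≤ a) → Trn m f h v → τ h = v := by
  have hf' : Geo T m f := fun k i j hi hj => hf k i j (hi.trans (by push_cast; omega)) (hj.trans (by push_cast; omega))
  obtain ⟨K, hK0, hK1, hK⟩ := exists_stable hA hf' (K0 := k0 + a) (by omega) a (by omega)
  refine exists_ax hX hf (by omega) (by omega) hK ?_
  exact Set.finite_of_encard_le_coe (fx_card hA hf' (by omega) (by omega))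

theorem locRig {C : (G : Type) → [Group G] → Prop} (hC : Inherits C) (hX : ∀ k, OnTree G (T k))
    (hst : ∀ k (x : V k), C (MulAction.stabilizer G x)) {k0 N : ℕ} (hA : Ac G T k0 N) : LocRig C (G := G) T n := by
  intro R a
  obtain ⟨c, hc⟩ : ∃ c : ℕ, c = k0 + a + (N + 1) * a + 2 * a + 2 := ⟨_, rfl⟩
  -- the radii
  let ρ : ℕ → ℕ := fun j => c + 2 * R * (n - j)
  have hρ : ∀ j, ρ (j + 1) ≤ ρ j := fun j => Nat.add_le_add_left (Nat.mul_le_mul_left _ (by omega)) _
  have hρ2 : ∀ j < n, ρ j = ρ (j + 1) + R + R := by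
    intro j hj
    show c + 2 * R * (n - j) = c + 2 * R * (n - (j + 1)) + R + R
    have e : n - j = n - (j + 1) + 1 := by omega
    rw [e]
    ring
  have hρ0 : ∀ j, ρ j ≤ ρ 0 := fun j => Nat.add_le_add_left (Nat.mul_le_mul_left _ (by omega)) _
  have hρc : ∀ j, c ≤ ρ j := fun j => Nat.le_add_right _ _
  let r : ℕ := ρ 0 + a
  let Ob : Fin n → Bx V r → Set G → Prop := fun t B o => Geo T r (bf B) ∧
    (∃ (h : G) (v : Fin n → ℤ), v ≠ 0 ∧ (∀ k, |v k| ≤ a) ∧ Trn (ρ (t + 1) + R) (bf B) h v) ∧
    o = Rt (Subgroup.closure (Trs G (ρ (t + 1) + R) a (bf B)))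
  have hr : ∀ t : Fin n, ρ (t + 1) + R + a ≤ r := by
    intro t
    have h1 := hρ2 t t.2
    have h2 := hρ0 t
    show _ ≤ ρ 0 + a
    omega
  refine ⟨r, fun _ => Set G, fun _ => cact (MonoidHom.id G), Ob, ?_, ?_, ?_, ?_⟩
  · rintro t B _ _ ⟨-, -, rfl⟩ ⟨-, -, rfl⟩
    rfl
  · rintro t B _ g ⟨hg, ⟨h, v, hv, hva, ht⟩, rfl⟩
    have e : bf (g • B) = fun k i => g • bf B k i := by
      funext k i
      exact bf_smul g B k i
    refine ⟨?_, ⟨g * h * g⁻¹, v, hv, hva, ?_⟩, ?_⟩
    · intro k i j hi hj
      rw [bf_smul, bf_smul, Pool.Agent.H76.VC.dist_sm' (hX k)]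
      exact hg k i j hi hj
    · rw [e]
      exact trn_smul g ht
    · rw [e, rt_conj]
      rfl
  · rintro t B _ ⟨hg, ⟨h, v, hv, hva, ht⟩, rfl⟩
    have hg' : Geo T (ρ (t + 1) + R + a) (bf B) := fun k i j hi hj =>
      hg k i j (hi.trans (by exact_mod_cast hr t)) (hj.trans (by exact_mod_cast hr t))
    obtain ⟨L, τ, hAx, hτ⟩ := box_ax hX hA hg' (by have := hρc (t + 1); omega)
    have h1 : C (St (Subgroup.closure (Trs G (ρ (t + 1) + R) a (bf B)))) :=
      st_mem hC hX hst hAx (h0 := h) (Subgroup.subset_closure ⟨v, hva, ht⟩) (by rw [hτ h v hva ht]; exact hv)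
    have h2 : ∀ g : G, g ∈ @MulAction.stabilizer G (Set G) _ (cact (MonoidHom.id G))
        (Rt (Subgroup.closure (Trs G (ρ (t + 1) + R) a (bf B)))) →
        g ∈ St (Subgroup.closure (Trs G (ρ (t + 1) + R) a (bf B))) := by
      intro g hg x
      have h3 : {x | g⁻¹ * x * g ∈ Rt (Subgroup.closure (Trs G (ρ (t + 1) + R) a (bf B)))} =
        Rt (Subgroup.closure (Trs G (ρ (t + 1) + R) a (bf B))) := hg
      constructor
      · intro h
        rw [← h3]
        exact h
      · intro h
        rw [← h3] at h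
        exact h
    exact hC.of_injective
      { toFun := fun x : @MulAction.stabilizer G (Set G) _ (cact (MonoidHom.id G))
          (Rt (Subgroup.closure (Trs G (ρ (t + 1) + R) a (bf B)))) =>
            (⟨x.1, h2 x.1 x.2⟩ : St (Subgroup.closure (Trs G (ρ (t + 1) + R) a (bf B))))
        map_one' := rfl
        map_mul' := fun _ _ => rfl } (fun x y hxy => Subtype.ext (Subtype.mk.inj hxy)) h1
  · intro f hf
    by_cases h : ∃ v : Fin n → ℤ, v ≠ 0 ∧ (∀ k, |v k| ≤ a) ∧ ∃ g : G, Trn (r + R) f g v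
    · left
      obtain ⟨v0, hv0, hva0, h0, ht0⟩ := h
      let W : ℕ → Set (Fin n → ℤ) := fun j => {v | (∀ k, |v k| ≤ a) ∧ ∃ h : G, Trn (ρ j) f h v}
      have hmono : ∀ j, Trs G (ρ j) a f ⊆ Trs G (ρ (j + 1)) a f := by
        rintro j h ⟨v, hv, ht⟩
        exact ⟨v, hv, fun k i hi => ht k i (hi.trans (by exact_mod_cast hρ j))⟩
      have ht0' : ∀ m : ℕ, m ≤ r + R → Trn m f h0 v0 := fun m hm k i hi => ht0 k i (hi.trans (by exact_mod_cast hm))
      obtain ⟨j, hj, hjr⟩ := exists_rank W
        (by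
          rintro j v ⟨hv, h, ht⟩
          exact ⟨hv, h, fun k i hi => ht k i (hi.trans (by exact_mod_cast hρ j))⟩)
        ⟨v0, ⟨hva0, h0, ht0' _ (by show ρ 0 ≤ ρ 0 + a + R; omega)⟩, hv0⟩
      have hfj : Geo T (ρ (j + 1) + a) f := by
        intro k i i' hi hi'
        have h1 : ρ (j + 1) + a ≤ r + R + a := by
          have := hρ0 (j + 1)
          show _ ≤ ρ 0 + a + R + a
          omega
        exact hf k i i' (hi.trans (by exact_mod_cast h1)) (hi'.trans (by exact_mod_cast h1))
      obtain ⟨L, τ, hAx, hτ⟩ := box_ax hX hA hfj (by have := hρc (j + 1); omega)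
      obtain ⟨A, hAe⟩ : ∃ A, A = Subgroup.closure (Trs G (ρ (j + 1)) a f) := ⟨_, rfl⟩
      rw [← hAe] at hAx
      have hTA : ∀ x ∈ Trs G (ρ (j + 1)) a f, x ∈ A := fun x hx => hAe ▸ Subgroup.subset_closure hx
      have hτ1 : τ 1 = 0 := by
        have h1 := hAx.mul 1 A.one_mem 1 A.one_mem
        rw [mul_one] at h1
        exact left_eq_add.1 h1
      have hτi : ∀ x ∈ A, τ x⁻¹ = -τ x := by
        intro x hx
        have h1 := hAx.mul x hx x⁻¹ (A.inv_mem hx)
        rw [mul_inv_cancel, hτ1] at h1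
        exact (neg_eq_of_add_eq_zero_right h1.symm).symm
      -- the translations of `A`
      have hτA : ∀ x ∈ A, τ x ∈ AddSubgroup.closure (W (j + 1)) := by
        intro x hx
        have hx' := hx
        rw [hAe] at hx'
        induction hx' using Subgroup.closure_induction with
        | mem x hx1 =>
          obtain ⟨v, hv, ht⟩ := hx1
          rw [hτ x v hv ht]
          exact AddSubgroup.subset_closure ⟨hv, x, ht⟩
        | one =>
          rw [hτ1]
          exact AddSubgroup.zero_mem _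
        | mul x y hx1 hy1 ihx ihy =>
          rw [← hAe] at hx1 hy1
          rw [hAx.mul x hx1 y hy1]
          exact AddSubgroup.add_mem _ (ihx hx1) (ihy hy1)
        | inv x hx1 ih =>
          rw [← hAe] at hx1
          rw [hτi x hx1]
          exact AddSubgroup.neg_mem _ (ih hx1)
      -- vectors are translations
      have hτB : ∀ v ∈ AddSubgroup.closure (W j), ∃ y ∈ Subgroup.closure (Trs G (ρ j) a f), y ∈ A ∧ τ y = v := by
        intro v hv
        have hBA : ∀ y ∈ Trs G (ρ j) a f, y ∈ A := fun y hy => hTA y (hmono j hy)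
        induction hv using AddSubgroup.closure_induction with
        | mem v hv1 =>
          obtain ⟨hva, h, ht⟩ := hv1
          have h1 : h ∈ Trs G (ρ j) a f := ⟨v, hva, ht⟩
          refine ⟨h, Subgroup.subset_closure h1, hBA h h1, hτ h v hva ?_⟩
          exact fun k i hi => ht k i (hi.trans (by exact_mod_cast hρ j))
        | zero => exact ⟨1, Subgroup.one_mem _, A.one_mem, hτ1⟩
        | add v w _ _ ihv ihw =>
          obtain ⟨y, hy, hyA, rfl⟩ := ihv
          obtain ⟨z, hz, hzA, rfl⟩ := ihw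
          exact ⟨y * z, Subgroup.mul_mem _ hy hz, A.mul_mem hyA hzA, hAx.mul y hyA z hzA⟩
        | neg v _ ih =>
          obtain ⟨y, hy, hyA, rfl⟩ := ih
          exact ⟨y⁻¹, Subgroup.inv_mem _ hy, A.inv_mem hyA, hτi y hyA⟩
      refine ⟨⟨j, hj⟩, Rt A, fun δ hδ => ⟨?_, ⟨h0, v0, hv0, hva0, ?_⟩, ?_⟩⟩
      · intro k i i' hi hi'
        rw [bf_bx δ f k hi, bf_bx δ f k hi']
        have h1 := hδ k
        have h2 := hf k (δ k + i) (δ k + i') (by
          have := abs_add_le (δ k) i
          push_cast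
          linarith) (by
          have := abs_add_le (δ k) i'
          push_cast
          linarith)
        rw [h2]
        congr 1
        ring
      · intro k i hi
        have h1 := hδ k
        have h2 : ρ (j + 1) + R + a ≤ r := hr ⟨j, hj⟩
        have h3 := hva0 k
        have h4 := abs_add_le i (v0 k)
        have h5 : |i| ≤ (r : ℤ) := hi.trans (by exact_mod_cast (by omega : ρ (j + 1) + R ≤ r))
        have h6 : |i + v0 k| ≤ (r : ℤ) := by
          have h7 : ((ρ (j + 1) + R + a : ℕ) : ℤ) ≤ (r : ℤ) := by exact_mod_cast h2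
          push_cast at h7 hi
          linarith
        rw [bf_bx δ f k h5, bf_bx δ f k h6, ← add_assoc]
        refine ht0 k _ ?_
        have := abs_add_le (δ k) i
        push_cast
        linarith
      · -- the object is the root set of `A`
        have key : ∀ h : G, ∀ v : Fin n → ℤ, (∀ k, |v k| ≤ a) →
            (Trn (ρ (j + 1) + R) (bf (bx r δ f)) h v ↔ ∀ k (i : ℤ), |i| ≤ ((ρ (j + 1) + R : ℕ) : ℤ) →
              h • f k (δ k + i) = f k (δ k + i + v k)) := by
          intro h v hv
          have h8 : ∀ k (i : ℤ), |i| ≤ ((ρ (j + 1) + R : ℕ) : ℤ) → bf (bx r δ f) k i = f k (δ k + i) ∧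
              bf (bx r δ f) k (i + v k) = f k (δ k + i + v k) := by
            intro k i hi
            have h2 : ρ (j + 1) + R + a ≤ r := hr ⟨j, hj⟩
            have h3 := hv k
            have h4 := abs_add_le i (v k)
            have h5 : |i| ≤ (r : ℤ) := hi.trans (by exact_mod_cast (by omega : ρ (j + 1) + R ≤ r))
            have h6 : |i + v k| ≤ (r : ℤ) := by
              have h7 : ((ρ (j + 1) + R + a : ℕ) : ℤ) ≤ (r : ℤ) := by exact_mod_cast h2
              push_cast at h7 hi
              linarith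
            rw [bf_bx δ f k h5, bf_bx δ f k h6, ← add_assoc]
            exact ⟨rfl, rfl⟩
          constructor
          · intro ht k i hi
            rw [← (h8 k i hi).1, ← (h8 k i hi).2]
            exact ht k i hi
          · intro ht k i hi
            rw [(h8 k i hi).1, (h8 k i hi).2]
            exact ht k i hi
        have hBδ : Subgroup.closure (Trs G (ρ (j + 1) + R) a (bf (bx r δ f))) ≤ A := by
          rw [Subgroup.closure_le]
          rintro h ⟨v, hv, ht⟩
          refine hTA h ⟨v, hv, fun k i hi => ?_⟩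
          have h1 := hδ k
          have h2 := (key h v hv).1 ht k (i - δ k) (by
            have := abs_sub i (δ k)
            push_cast
            linarith)
          rwa [add_sub_cancel] at h2
        refine root_of hBδ hAx.mul hAx.fin ?_
        intro x hx
        obtain ⟨m, hm, h1⟩ := hjr _ (hτA x hx)
        obtain ⟨y, hy, -, hy2⟩ := hτB _ h1
        refine ⟨m, hm, y, ?_, hy2.symm⟩
        have h2 : Subgroup.closure (Trs G (ρ j) a f) ≤
            Subgroup.closure (Trs G (ρ (j + 1) + R) a (bf (bx r δ f))) := by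
          refine Subgroup.closure_mono ?_
          rintro h ⟨v, hv, ht⟩
          refine ⟨v, hv, (key h v hv).2 fun k i hi => ht k _ ?_⟩
          have h3 := hδ k
          have h4 := abs_add_le (δ k) i
          rw [hρ2 j hj]
          push_cast at hi ⊢
          linarith
        exact h2 hy
    · right
      intro v hv hva g hg
      exact h ⟨v, hv, hva, g, hg⟩

end Pool.Agent.H37.PT
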