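import Pool.Agent.H37.PT.Defs

/-!
# Ranks, powers

`exists_rank`: the spans over the rational numbers of an increasing sequence of `n + 1` sets of integral vectors of length `n`, the
first of which contains a nonzero vector, have dimensions between `1` and `n`, so two consecutive ones are equal (for some `j < n`);
then clear the denominators. (`Submodule.span ℚ` of the image in `Fin n → ℚ`, `Module.finrank`, `Submodule.eq_of_le_of_finrank_eq`;
if `x ∈ AddSubgroup.closure (V (j + 1))` then its image is in the span of `V j`; the set of `y : Fin n → ℚ` with a positive integral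
multiple in the image of `AddSubgroup.closure (V j)` is a submodule.)

`root_of`: let `K = {x ∈ A : τ x = 0}`, finite. `m • τ x = τ y`, `y ∈ B ≤ A`: with `u = x ^ m` all `u ^ j * (y ^ j)⁻¹`, `j : ℕ`, are in
`K`; pigeonhole: `u ^ i * (y ^ i)⁻¹ = u ^ j * (y ^ j)⁻¹`, `i < j`, so `u ^ (j - i) = y ^ (j - i) ∈ B`.
-/

set_option autoImplicit false

namespace Pool.Agent.H37.PT

open Pool.Agent.H98.FJ Pool.Agent.H93.TR Pool.Agent.H54.AX

theorem exists_rank {n : ℕ} (W : ℕ → Set (Fin n → ℤ)) (hW : ∀ j, W j ⊆ W (j + 1)) (h0 : ∃ v ∈ W 0, v ≠ 0) :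
    ∃ j < n, ∀ x ∈ AddSubgroup.closure (W (j + 1)), ∃ m : ℕ, 0 < m ∧ m • x ∈ AddSubgroup.closure (W j) := by
  classical
  let c : (Fin n → ℤ) →+ (Fin n → ℚ) :=
    { toFun := fun v k => (v k : ℚ)
      map_zero' := by
        funext k
        show (((0 : Fin n → ℤ) k : ℤ) : ℚ) = 0
        rw [Pi.zero_apply, Int.cast_zero]
      map_add' := by
        intro v w
        funext k
        show (((v + w) k : ℤ) : ℚ) = (v k : ℚ) + (w k : ℚ)
        rw [Pi.add_apply, Int.cast_add] }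
  have hc : ∀ v k, c v k = (v k : ℚ) := fun v k => rfl
  have hinj : ∀ v w, c v = c w → v = w := by
    intro v w h
    funext k
    have h1 := congrFun h k
    rw [hc, hc] at h1
    exact_mod_cast h1
  let S : ℕ → Submodule ℚ (Fin n → ℚ) := fun j => Submodule.span ℚ (c '' W j)
  have hmono : ∀ j, S j ≤ S (j + 1) := fun j => Submodule.span_mono (Set.image_mono (hW j))
  obtain ⟨j, hj, he⟩ : ∃ j < n, S j = S (j + 1) := by
    by_contra hcon
    push Not at hcon
    have key : ∀ j, j ≤ n → j + 1 ≤ Module.finrank ℚ (S j) := by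
      intro j
      induction j with
      | zero =>
        intro _
        obtain ⟨v, hv, hv0⟩ := h0
        have h1 : c v ∈ S 0 := Submodule.subset_span ⟨v, hv, rfl⟩
        have h2 : c v ≠ 0 := fun h => hv0 (hinj v 0 (by rw [h, map_zero]))
        rw [zero_add, Nat.one_le_iff_ne_zero]
        intro h3
        rw [Submodule.finrank_eq_zero] at h3
        rw [h3, Submodule.mem_bot] at h1
        exact h2 h1
      | succ j ih =>
        intro hj
        have h1 := ih (by omega)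
        have h2 : Module.finrank ℚ (S j) < Module.finrank ℚ (S (j + 1)) :=
          Submodule.finrank_lt_finrank_of_lt (lt_of_le_of_ne (hmono j) (hcon j (by omega)))
        omega
    have h1 := key n le_rfl
    have h2 : Module.finrank ℚ (S n) ≤ Module.finrank ℚ (Fin n → ℚ) := Submodule.finrank_le _
    rw [Module.finrank_fin_fun] at h2
    omega
  refine ⟨j, hj, fun x hx => ?_⟩
  have hxS : c x ∈ S j := by
    rw [he]
    induction hx using AddSubgroup.closure_induction with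
    | mem y hy => exact Submodule.subset_span ⟨y, hy, rfl⟩
    | zero =>
      rw [map_zero]
      exact Submodule.zero_mem _
    | add y z _ _ ihy ihz =>
      rw [map_add]
      exact Submodule.add_mem _ ihy ihz
    | neg y _ ih =>
      rw [map_neg]
      exact Submodule.neg_mem _ ih
  have key : ∀ y ∈ S j, ∃ m : ℕ, 0 < m ∧ ∃ z ∈ AddSubgroup.closure (W j), (m : ℚ) • y = c z := by
    intro y hy
    induction hy using Submodule.span_induction with
    | mem y hy =>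
      obtain ⟨w, hw, rfl⟩ := hy
      exact ⟨1, one_pos, w, AddSubgroup.subset_closure hw, by rw [Nat.cast_one, one_smul]⟩
    | zero => exact ⟨1, one_pos, 0, AddSubgroup.zero_mem _, by rw [smul_zero, map_zero]⟩
    | add y1 y2 _ _ ih1 ih2 =>
      obtain ⟨m1, hm1, z1, hz1, e1⟩ := ih1
      obtain ⟨m2, hm2, z2, hz2, e2⟩ := ih2
      refine ⟨m1 * m2, Nat.mul_pos hm1 hm2, m2 • z1 + m1 • z2,
        AddSubgroup.add_mem _ (AddSubgroup.nsmul_mem _ hz1 _) (AddSubgroup.nsmul_mem _ hz2 _), ?_⟩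
      rw [map_add, map_nsmul, map_nsmul, ← e1, ← e2, ← Nat.cast_smul_eq_nsmul ℚ, ← Nat.cast_smul_eq_nsmul ℚ, smul_smul,
        smul_smul, smul_add, Nat.cast_mul, mul_comm (m2 : ℚ) (m1 : ℚ)]
    | smul q y _ ih =>
      obtain ⟨m, hm, z, hz, e⟩ := ih
      refine ⟨q.den * m, Nat.mul_pos q.den_pos hm, q.num • z, AddSubgroup.zsmul_mem _ hz _, ?_⟩
      rw [map_zsmul, ← e, ← Int.cast_smul_eq_zsmul ℚ, smul_smul, smul_smul]
      congr 1
      have h1 : (q.den : ℚ) * q = q.num := by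
        rw [mul_comm]
        exact Rat.mul_den_eq_num q
      rw [Nat.cast_mul, mul_assoc, mul_comm (m : ℚ) q, ← mul_assoc, h1]
  obtain ⟨m, hm, z, hz, e⟩ := key _ hxS
  refine ⟨m, hm, ?_⟩
  have h1 : c (m • x) = c z := by
    rw [map_nsmul, ← e, Nat.cast_smul_eq_nsmul]
  rw [hinj _ _ h1]
  exact hz

private theorem tau_one {G : Type} [Group G] {n : ℕ} {A : Subgroup G} {τ : G → Fin n → ℤ}
    (hτ : ∀ x ∈ A, ∀ y ∈ A, τ (x * y) = τ x + τ y) : τ 1 = 0 := by
  have h := hτ 1 A.one_mem 1 A.one_mem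
  rw [mul_one] at h
  exact left_eq_add.1 h

/-- the translation of a power -/
theorem tau_pow {G : Type} [Group G] {n : ℕ} {A : Subgroup G} {τ : G → Fin n → ℤ}
    (hτ : ∀ x ∈ A, ∀ y ∈ A, τ (x * y) = τ x + τ y) {x : G} (hx : x ∈ A) (m : ℕ) : τ (x ^ m) = m • τ x := by
  induction m with
  | zero => rw [pow_zero, zero_smul, tau_one hτ]
  | succ m ih => rw [pow_succ, hτ _ (A.pow_mem hx m) _ hx, ih, succ_nsmul]

/-- the translation of the inverse -/
theorem tau_inv {G : Type} [Group G] {n : ℕ} {A : Subgroup G} {τ : G → Fin n → ℤ}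
    (hτ : ∀ x ∈ A, ∀ y ∈ A, τ (x * y) = τ x + τ y) {x : G} (hx : x ∈ A) : τ x⁻¹ = - τ x := by
  have h := hτ _ (A.inv_mem hx) _ hx
  rw [inv_mul_cancel, tau_one hτ] at h
  exact eq_neg_of_add_eq_zero_left h.symm

/-- two elements with the same translation have a common power -/
theorem pow_eq {G : Type} [Group G] {n : ℕ} {A : Subgroup G} {τ : G → Fin n → ℤ}
    (hτ : ∀ x ∈ A, ∀ y ∈ A, τ (x * y) = τ x + τ y) (hfin : {x : G | x ∈ A ∧ τ x = 0}.Finite) {u y : G} (hu : u ∈ A)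
    (hy : y ∈ A) (h : τ u = τ y) : ∃ m : ℕ, 0 < m ∧ u ^ m = y ^ m := by
  have hmem : ∀ j : ℕ, u ^ j * (y ^ j)⁻¹ ∈ {x : G | x ∈ A ∧ τ x = 0} := by
    intro j
    refine ⟨A.mul_mem (A.pow_mem hu j) (A.inv_mem (A.pow_mem hy j)), ?_⟩
    rw [hτ _ (A.pow_mem hu j) _ (A.inv_mem (A.pow_mem hy j)), tau_inv hτ (A.pow_mem hy j), tau_pow hτ hu, tau_pow hτ hy, h,
      add_neg_cancel]
  have key : ∀ i j : ℕ, i < j → u ^ i * (y ^ i)⁻¹ = u ^ j * (y ^ j)⁻¹ → ∃ m : ℕ, 0 < m ∧ u ^ m = y ^ m := by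
    intro i j hij he
    obtain ⟨m, rfl⟩ := Nat.exists_eq_add_of_lt hij
    refine ⟨m + 1, Nat.succ_pos m, ?_⟩
    have e1 : u ^ (i + m + 1) = u ^ i * u ^ (m + 1) := by rw [add_assoc, pow_add]
    have e2 : y ^ (i + m + 1) = y ^ (m + 1) * y ^ i := by rw [add_assoc, add_comm, pow_add]
    rw [e1, e2, mul_inv_rev, mul_assoc] at he
    have e3 := mul_left_cancel he
    have e4 : (1 : G) = u ^ (m + 1) * (y ^ (m + 1))⁻¹ := by
      calc (1 : G) = (y ^ i) * (y ^ i)⁻¹ := (mul_inv_cancel _).symm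
        _ = y ^ i * (u ^ (m + 1) * ((y ^ i)⁻¹ * (y ^ (m + 1))⁻¹)) := by rw [← e3]
        _ = u ^ (m + 1) * (y ^ (m + 1))⁻¹ := by
          have e5 : (y ^ i)⁻¹ = u ^ (m + 1) * ((y ^ i)⁻¹ * (y ^ (m + 1))⁻¹) := e3
          have e6 : (y ^ i)⁻¹ * (y ^ (m + 1))⁻¹ = (y ^ (m + 1))⁻¹ * (y ^ i)⁻¹ := by
            rw [← mul_inv_rev, ← mul_inv_rev, ← pow_add, ← pow_add, add_comm]
          rw [e6, ← mul_assoc] at e5
          have e7 : (1 : G) = u ^ (m + 1) * (y ^ (m + 1))⁻¹ := by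
            have := mul_right_cancel (b := (y ^ i)⁻¹) (a := 1) (c := u ^ (m + 1) * (y ^ (m + 1))⁻¹) (by rw [one_mul]; exact e5)
            exact this
          rw [← e3, mul_inv_cancel]
          exact e7
    rw [eq_comm, mul_inv_eq_one] at e4
    exact e4
  have hft : Finite {x : G | x ∈ A ∧ τ x = 0} := hfin.to_subtype
  obtain ⟨i, j, hij, he⟩ := Finite.exists_ne_map_eq_of_infinite
    (fun j : ℕ => (⟨u ^ j * (y ^ j)⁻¹, hmem j⟩ : {x : G | x ∈ A ∧ τ x = 0}))
  have he' : u ^ i * (y ^ i)⁻¹ = u ^ j * (y ^ j)⁻¹ := congrArg Subtype.val he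
  rcases lt_or_gt_of_ne hij with h1 | h1
  · exact key i j h1 he'
  · exact key j i h1 he'.symm

/-- the root sets of `B ≤ A` agree if the translations of `B` have finite index in those of `A` -/
theorem root_of {G : Type} [Group G] {n : ℕ} {A B : Subgroup G} (hBA : B ≤ A) {τ : G → Fin n → ℤ}
    (hτ : ∀ x ∈ A, ∀ y ∈ A, τ (x * y) = τ x + τ y) (hfin : {x : G | x ∈ A ∧ τ x = 0}.Finite)
    (h : ∀ x ∈ A, ∃ m : ℕ, 0 < m ∧ ∃ y ∈ B, m • τ x = τ y) : Rt A = Rt B := by
  refine Set.Subset.antisymm ?_ ?_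
  · rintro x ⟨m, hm, hx⟩
    obtain ⟨m', hm', y, hy, e⟩ := h _ hx
    rw [← tau_pow hτ hx] at e
    obtain ⟨l, hl, e2⟩ := pow_eq hτ hfin (A.pow_mem hx m') (hBA hy) e
    refine ⟨m * m' * l, Nat.mul_pos (Nat.mul_pos hm hm') hl, ?_⟩
    rw [pow_mul, pow_mul, e2]
    exact B.pow_mem hy l
  · rintro x ⟨m, hm, hx⟩
    exact ⟨m, hm, hBA hx⟩

end Pool.Agent.H37.PT
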