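import Pool.Agent.H37.PT.Apt
import Pool.Agent.H37.PT.Act

/-!
# Groups acting on spaces with clean walls

`walls`: reduce to a finitely generated `H` (`Pool.Agent.H76.VC.of_fg`), `H = closure S`, `S` finite, `x0 ∈ V`.
`F` = the union over `s ∈ S ∪ S⁻¹` of `{h ∈ Hs | x0 ∈ h ∧ s • x0 ∉ h}`: finite; `e : Fin n ≃ F`. `O i` = the set of all `g • e i` and
`(g • e i)ᶜ`, `g ∈ H`: `Nest (O i)` (`hn` for `e i` and the complements; `e i` and its complement are not empty) and `Pres H (O i)`.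
`ft hC hT n H (fun i => Vx (O i))` with `actVx`, `act_onTree`. For `Bd`: let `K ≤ H` be finitely generated, `N` from `hB` for `K.map H.subtype`;
for `y : ∀ i, Vx (O i)` let `B` be the subgroup of the `g` in `K.map H.subtype` which fix all `y i`, `D = ∑ i, 2 * dist (ev x0) (y i)`:
if `x0 ∈ h`, `b • x0 ∉ h`, `h ∈ Hs`, `b ∈ H`, then `h ∈ O i` for some `i`: with the words in `S ∪ S⁻¹` (`Subgroup.closure_induction` for
the claim: for all `g ∈ H`: `g • x0 ∈ h`, `(g * b) • x0 ∉ h`, `h ∈ Hs` implies `h ∈ O i` for some `i`; for products look at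
the point in the middle, for the inverse of `s` use the complement). So the number of these `h` is at most `D` by `fix_ncard`.
-/

set_option autoImplicit false

namespace Pool.Agent.H37.PT

open Set Pool.Agent.H98.FJ Pool.Agent.H93.TR Pool.Agent.H54.AX
open scoped Pointwise

/-- two nested half-spaces -/
private def Ne2 {V : Type} (h k : Set V) : Prop := h ⊆ k ∨ k ⊆ h ∨ Disjoint h k ∨ h ∪ k = univ

private theorem Ne2.symm {V : Type} {h k : Set V} (H : Ne2 h k) : Ne2 k h := by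
  rcases H with H | H | H | H
  · exact Or.inr (Or.inl H)
  · exact Or.inl H
  · exact Or.inr (Or.inr (Or.inl H.symm))
  · exact Or.inr (Or.inr (Or.inr (by rw [union_comm]; exact H)))

private theorem Ne2.compl_right {V : Type} {h k : Set V} (H : Ne2 h k) : Ne2 h kᶜ := by
  rcases H with H | H | H | H
  · exact Or.inr (Or.inr (Or.inl (disjoint_compl_right_iff_subset.2 H)))
  · refine Or.inr (Or.inr (Or.inr ?_))
    rw [union_comm, ← compl_subset_iff_union, compl_compl]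
    exact H
  · exact Or.inl (subset_compl_iff_disjoint_right.2 H)
  · refine Or.inr (Or.inl ?_)
    rw [compl_subset_iff_union, union_comm]
    exact H

private theorem Ne2.compl_left {V : Type} {h k : Set V} (H : Ne2 h k) : Ne2 hᶜ k := H.symm.compl_right.symm

private theorem Ne2.smul {G V : Type} [Group G] [MulAction G V] {h k : Set V} (H : Ne2 h k) (g : G) :
    Ne2 (g • h) (g • k) := by
  rcases H with H | H | H | H
  · exact Or.inl (smul_set_mono H)
  · exact Or.inr (Or.inl (smul_set_mono H))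
  · exact Or.inr (Or.inr (Or.inl (disjoint_smul_set.2 H)))
  · refine Or.inr (Or.inr (Or.inr ?_))
    rw [← smul_set_union, H, smul_set_univ]

/-- the orbit of a half-space and its complement -/
private def OrbC {G V : Type} [Group G] [MulAction G V] (H : Subgroup G) (e : Set V) : Set (Set V) :=
  {k | ∃ g ∈ H, k = g • e ∨ k = (g • e)ᶜ}

private theorem orbC_compl {G V : Type} [Group G] [MulAction G V] {H : Subgroup G} {e h : Set V} (hh : h ∈ OrbC H e) :
    hᶜ ∈ OrbC H e := by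
  obtain ⟨g, hg, rfl | rfl⟩ := hh
  · exact ⟨g, hg, Or.inr rfl⟩
  · exact ⟨g, hg, Or.inl (compl_compl _)⟩

private theorem orbC_smul {G V : Type} [Group G] [MulAction G V] {H : Subgroup G} {e h : Set V} (hh : h ∈ OrbC H e)
    {g' : G} (hg' : g' ∈ H) : g' • h ∈ OrbC H e := by
  obtain ⟨g, hg, rfl | rfl⟩ := hh
  · exact ⟨g' * g, H.mul_mem hg' hg, Or.inl (mul_smul _ _ _).symm⟩
  · exact ⟨g' * g, H.mul_mem hg' hg, Or.inr (by rw [smul_set_compl, mul_smul])⟩

private theorem orbC_sub {G V : Type} [Group G] [MulAction G V] {Hs : Set (Set V)} (hc : ∀ h ∈ Hs, hᶜ ∈ Hs)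
    (hi : ∀ (g : G), ∀ h ∈ Hs, g • h ∈ Hs) {H : Subgroup G} {e : Set V} (he : e ∈ Hs) : OrbC H e ⊆ Hs := by
  rintro h ⟨g, hg, rfl | rfl⟩
  · exact hi g e he
  · exact hc _ (hi g e he)

private theorem orbC_ne2 {G V : Type} [Group G] [MulAction G V] {H : Subgroup G} {e : Set V}
    (hn : ∀ g : G, Ne2 e (g • e)) {h k : Set V} (hh : h ∈ OrbC H e) (hk : k ∈ OrbC H e) : Ne2 h k := by
  obtain ⟨g, hg, hh⟩ := hh
  obtain ⟨g', hg', hk⟩ := hk
  have h1 : Ne2 (g • e) (g' • e) := by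
    have := (hn (g⁻¹ * g')).smul g
    rwa [smul_smul, mul_inv_cancel_left] at this
  rcases hh with rfl | rfl <;> rcases hk with rfl | rfl
  · exact h1
  · exact h1.compl_right
  · exact h1.compl_left
  · exact h1.compl_right.compl_left

private theorem nest_orbC {G V : Type} [Group G] [MulAction G V] {Hs : Set (Set V)} (hc : ∀ h ∈ Hs, hᶜ ∈ Hs)
    (hi : ∀ (g : G), ∀ h ∈ Hs, g • h ∈ Hs) (hf : ∀ x y, {h ∈ Hs | x ∈ h ∧ y ∉ h}.Finite)
    {H : Subgroup G} {e : Set V} (he : e ∈ Hs) (hn : ∀ g : G, Ne2 e (g • e)) {x y : V} (hx : x ∈ e) (hy : y ∉ e) :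
    Nest (OrbC H e) where
  compl := fun h hh => orbC_compl hh
  fin := by
    intro a b
    refine (hf a b).subset ?_
    rintro h ⟨h1, h2⟩
    exact ⟨orbC_sub hc hi he h1, h2⟩
  ne := by
    rintro h ⟨g, hg, rfl | rfl⟩
    · exact ⟨g • x, smul_mem_smul_set hx⟩
    · exact ⟨g • y, fun h1 => hy ((smul_mem_smul_set_iff).1 h1)⟩
  nest := fun h hh k hk => orbC_ne2 hn hh hk

private theorem fg_map' {G H : Type} [Group G] [Group H] (φ : G →* H) {K : Subgroup G} (hK : K.FG) : (K.map φ).FG := by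
  classical
  obtain ⟨S, hS⟩ := hK
  exact ⟨S.image φ, by rw [Finset.coe_image, ← MonoidHom.map_closure, hS]⟩

theorem walls {C : (G : Type) → [Group G] → Prop} (hC : Inherits C) (hT : Pool.Agent.H76.GT.Transfer C) {G V : Type}
    [Group G] [MulAction G V] [Nonempty V] (Hs : Set (Set V)) (hc : ∀ h ∈ Hs, hᶜ ∈ Hs) (hi : ∀ (g : G), ∀ h ∈ Hs, g • h ∈ Hs)
    (hf : ∀ x y, {h ∈ Hs | x ∈ h ∧ y ∉ h}.Finite)
    (hn : ∀ h ∈ Hs, ∀ g : G, h ⊆ g • h ∨ g • h ⊆ h ∨ Disjoint h (g • h) ∨ h ∪ g • h = univ)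
    (hB : ∀ H : Subgroup G, H.FG → ∃ N : ℕ, ∀ B : Subgroup G, B ≤ H → ∀ x : V,
      (∃ D : ℕ, ∀ b ∈ B, {h ∈ Hs | x ∈ h ∧ b • x ∉ h}.ncard ≤ D) → (B : Set G).encard ≤ N) : C G := by
  classical
  refine Pool.Agent.H76.VC.of_fg hC G fun H hH => ?_
  obtain ⟨S, hS⟩ := hH
  obtain ⟨x0⟩ := ‹Nonempty V›
  have hF : (⋃ s ∈ S, {h ∈ Hs | x0 ∈ h ∧ s • x0 ∉ h}).Finite := S.finite_toSet.biUnion fun s _ => hf x0 (s • x0)
  set Fs : Finset (Set V) := hF.toFinset with hFs
  have hmem : ∀ h, h ∈ Fs ↔ ∃ s ∈ S, h ∈ Hs ∧ x0 ∈ h ∧ s • x0 ∉ h := by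
    intro h
    rw [hFs, Set.Finite.mem_toFinset]
    simp only [mem_iUnion, Set.mem_ofPred_eq, exists_prop]
  set n : ℕ := Fs.card with hnd
  set e : Fin n → Set V := fun i => (Fs.equivFin.symm i : Set V) with he
  have heF : ∀ i, e i ∈ Fs := fun i => (Fs.equivFin.symm i).2
  have heS : ∀ h ∈ Fs, ∃ i, e i = h := by
    intro h hh
    refine ⟨Fs.equivFin ⟨h, hh⟩, ?_⟩
    simp only [he, Equiv.symm_apply_apply]
  have heH : ∀ i, e i ∈ Hs := fun i => by
    obtain ⟨s, -, h1, -⟩ := (hmem _).1 (heF i)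
    exact h1
  set O : Fin n → Set (Set V) := fun i => OrbC H (e i) with hO
  have hN : ∀ i, Nest (O i) := fun i => by
    obtain ⟨s, -, h1, h2, h3⟩ := (hmem _).1 (heF i)
    exact nest_orbC hc hi hf h1 (hn _ h1) h2 h3
  have hP : ∀ i, Pres H (O i) := fun i g h hh => orbC_smul hh g.2
  have claim : ∀ b ∈ H, ∀ g ∈ H, ∀ h ∈ Hs, g • x0 ∈ h → (g * b) • x0 ∉ h → ∃ i, h ∈ O i := by
    intro b hb
    rw [← hS] at hb
    induction hb using Subgroup.closure_induction with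
    | mem s hs =>
      intro g hg h hh h1 h2
      have h3 : g⁻¹ • h ∈ Fs := by
        rw [hmem]
        refine ⟨s, hs, hi _ _ hh, ?_, ?_⟩
        · rwa [mem_smul_set_iff_inv_smul_mem, inv_inv]
        · rwa [mem_smul_set_iff_inv_smul_mem, inv_inv, smul_smul]
      obtain ⟨i, hi'⟩ := heS _ h3
      refine ⟨i, g, hg, Or.inl ?_⟩
      rw [hi', smul_inv_smul]
    | one =>
      intro g hg h hh h1 h2
      rw [mul_one] at h2
      exact absurd h1 h2
    | mul a b ha hb iha ihb =>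
      intro g hg h hh h1 h2
      rw [hS] at ha
      by_cases h3 : (g * a) • x0 ∈ h
      · exact ihb (g * a) (H.mul_mem hg ha) h hh h3 (by rwa [mul_assoc])
      · exact iha g hg h hh h1 h3
    | inv a ha iha =>
      intro g hg h hh h1 h2
      rw [hS] at ha
      obtain ⟨i, h3⟩ := iha (g * a⁻¹) (H.mul_mem hg (H.inv_mem ha)) hᶜ (hc h hh) h2
        (by rw [inv_mul_cancel_right]; exact fun h4 => h4 h1)
      refine ⟨i, ?_⟩
      have := orbC_compl h3
      rwa [compl_compl] at this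
  let _ : ∀ i, MulAction H (Vx (O i)) := fun i => actVx (hP i)
  refine ft hC hT n H (fun i => Vx (O i)) (fun i => dual (O i)) (fun i => act_onTree (hN i) (hP i) x0) ?_
  intro K hK
  obtain ⟨N, hNB⟩ := hB (K.map H.subtype) (fg_map' _ hK)
  refine ⟨N, fun y => ?_⟩
  set B : Subgroup H := K ⊓ ⨅ i, MulAction.stabilizer H (y i) with hBd
  have hmB : ∀ g : H, g ∈ B ↔ g ∈ K ∧ ∀ i, g • y i = y i := by
    intro g
    rw [hBd, Subgroup.mem_inf, Subgroup.mem_iInf]
    rfl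
  have h1 := hNB (B.map H.subtype) (Subgroup.map_mono inf_le_left) x0
    ⟨∑ i, 2 * (dual (O i)).dist (ev (hN i) x0) (y i), ?_⟩
  · refine le_trans ?_ h1
    rw [← Function.Injective.encard_image Subtype.val_injective]
    refine Set.encard_le_encard ?_
    rintro _ ⟨g, hg, rfl⟩
    exact ⟨g, (hmB g).2 hg, rfl⟩
  · rintro _ ⟨b, hb, rfl⟩
    have hb' := (hmB b).1 hb
    have h2 : {h ∈ Hs | x0 ∈ h ∧ (b : G) • x0 ∉ h} ⊆ ⋃ i, {h ∈ O i | x0 ∈ h ∧ b • x0 ∉ h} := by
      rintro h ⟨h3, h4, h5⟩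
      obtain ⟨i, h6⟩ := claim b b.2 1 H.one_mem h h3 (by rwa [one_smul]) (by rwa [one_mul])
      exact mem_iUnion.2 ⟨i, h6, h4, h5⟩
    have h3 : (⋃ i, {h ∈ O i | x0 ∈ h ∧ b • x0 ∉ h}).Finite :=
      Set.finite_iUnion fun i => (hN i).fin x0 (b • x0)
    refine (Set.ncard_le_ncard h2 h3).trans ((Set.ncard_iUnion_le_of_fintype _).trans ?_)
    exact Finset.sum_le_sum fun i _ => fix_ncard (hN i) (hP i) b x0 (y i) (hb'.2 i)

end Pool.Agent.H37.PT
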